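import Pool.Agent.H94.FD.TenF
import Pool.Agent.H82.FD.Abs
import Pool.Agent.H83.FD.TargetsB
import Pool.Agent.H83.G.BroC

/-!
Frostman data (MP_ee74d2_an): the class `Cls L ∧ EnX L α` is stable under the operations of the
induction on scales.
-/

set_option autoImplicit false

namespace Pool.Agent.H94.FD

open MeasureTheory Set
open Pool.Agent.H83.G Pool.Agent.H83.G.BRO Pool.Agent.H82.FD Pool.Agent.H83.FD
open scoped ENNReal NNReal RealInnerProductSpace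

/-- the class: `Cls L` and the square functions in the boxes of full duration -/
def KX (m L : ℕ) (α : ℝ) : KP m := fun κ R A G => Cls L κ R A G ∧ EnX L α R A G

theorem EnX_mono {m L : ℕ} {α R A A' : ℝ} {G : Z m → ℂ} (hR : 0 < R) (hA : 0 ≤ A) (h : A ≤ A')
    (hG : EnX L α R A G) : EnX L α R A' G := by
  intro I φ η s r z₀ hφ hsep hI hs hs1 hr hrR
  refine (hG I φ η s r z₀ hφ hsep hI hs hs1 hr hrR).trans (ENNReal.ofReal_le_ofReal ?_)
  have hs0 : 0 < s := lt_of_lt_of_le (by unfold sR; positivity) hs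
  have hr0 : 0 < r := lt_of_lt_of_le (by positivity) hr
  have hmin : 0 ≤ min (R ^ (α - m)) (r ^ (α - m)) := by positivity
  gcongr

/-- IsCl: the class is stable -/
theorem isCl_KX (hRSC : T_RSC) (hCPC : T_CPC) (hSSC : T_SSC) (hRSX : T_RSX) (hCPX : T_CPX)
    (hSCX : T_SCX) {m L : ℕ} (α : ℝ) (hL : 4 * m + 20 ≤ L) : IsCl m L (KX m L α) where
  cls := fun h => h.1
  monoK := fun h hκ hR hG => ⟨Cls_mono h hR hκ hG.1, hG.2⟩
  monoA := fun hR hA h hG => ⟨Cls_monoA hR hA h hG.1, EnX_mono hR hA h hG.2⟩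
  rsc := by
    obtain ⟨C₁, hC₁, h1⟩ := hRSC m L
    obtain ⟨C₂, hC₂, h2⟩ := hRSX m L α
    refine ⟨max C₁ C₂, hC₁.trans (le_max_left _ _), ?_⟩
    intro κ R A G φ η s hφ hκ0 hκ hA hs hs1 hRs hG
    obtain ⟨G', hG', hTF, hI⟩ := h1 κ R A G φ η s hφ hκ0 hκ hA hs hs1 hRs hG.1
    have hR0 : 0 < R * s ^ 2 := by linarith
    refine ⟨G', ⟨?_, ?_⟩, hTF, hI⟩
    · exact Cls_monoA hR0 (by positivity)
        (mul_le_mul_of_nonneg_right (le_max_left _ _) hA.le) hG'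
    · refine EnX_mono hR0 (by positivity) (mul_le_mul_of_nonneg_right (le_max_right _ _) hA.le) ?_
      refine h2 R A G G' φ η s hφ hA hs hs1 hRs hG.1.1 (fun ζ hζ => ?_) hG.2 hG'.1 hTF
      obtain ⟨a1, a2, a3, a4⟩ := hG.1.2.1 ζ hζ
      linarith
  cpc := by
    intro β K hβ hK
    obtain ⟨C₁, hC₁, h1⟩ := hCPC m L β K hβ hK
    obtain ⟨C₂, hC₂, h2⟩ := hCPX m L β α K hβ hK
    refine ⟨max C₁ C₂, hC₁.trans (le_max_left _ _), ?_⟩
    intro κ R A G c hκ0 hκ hR hA hc hG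
    have hR0 : 0 < R := by linarith
    refine ⟨?_, ?_⟩
    · exact Cls_monoA hR0 (by positivity)
        (mul_le_mul_of_nonneg_right (le_max_left _ _) hA.le) (h1 κ R A G c hκ0 hκ hR hA hc hG.1)
    · exact EnX_mono hR0 (by positivity) (mul_le_mul_of_nonneg_right (le_max_right _ _) hA.le)
        (h2 R A G c hR hA hG.2)
  ssc := by
    intro β Ψ Ξ ψ χ δ δ' hβ hΨ hΞ hδ hδ4 hδ' hL'
    obtain ⟨C₁, hC₁, h1⟩ := hSSC m L β Ψ Ξ ψ χ δ δ' hβ hΨ hΞ hδ hδ4 hδ' hL'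
    obtain ⟨C₂, hC₂, h2⟩ := hSCX m L β Ψ Ξ ψ χ α δ hβ hΨ hΞ hδ hδ4 hL
    refine ⟨8 * C₁ + C₂, by linarith, ?_⟩
    intro κ R r A G S z₁ hκ0 hκ hR hCR hRr hrC hA hG
    have hR0 : 0 < R := by linarith
    have hC0 : 0 < 8 * C₁ + C₂ := by linarith
    have hr0 : 0 < r := lt_of_lt_of_le (Real.sqrt_pos.2 hR0) hRr
    have hRδ0 : 0 < R ^ δ := by positivity
    have e1 : R / (8 * C₁ + C₂) ≤ R / C₁ :=
      div_le_div_of_nonneg_left hR0.le (by linarith) (by linarith)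
    have e2 : R / (8 * C₁ + C₂) ≤ R / C₂ :=
      div_le_div_of_nonneg_left hR0.le (by linarith) (by linarith)
    obtain ⟨G', hG', hTF⟩ := h1 κ R r A G S z₁ hκ0 hκ hR (by linarith) hRr (hrC.trans e1) hA hG.1
    have hP : 0 < (R / r) ^ ((m : ℝ) / 2) := by positivity
    have hRδ' : 1 ≤ R ^ δ' := Real.one_le_rpow hR hδ'.le
    have hκ1 : κ + C₁ * R ^ (-δ) ≤ 1 / 2 := by
      have a1 : C₁ * R ^ (-δ) ≤ 1 / 8 := by
        rw [Real.rpow_neg hR0.le, ← div_eq_mul_inv, div_le_iff₀ hRδ0]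
        linarith
      linarith
    have hκ2 : κ + C₁ * R ^ (-δ) ≤ κ + (8 * C₁ + C₂) * R ^ (-δ) := by
      have : C₁ * R ^ (-δ) ≤ (8 * C₁ + C₂) * R ^ (-δ) :=
        mul_le_mul_of_nonneg_right (by linarith) (by positivity)
      linarith
    refine ⟨G', ⟨?_, ?_⟩, hTF⟩
    · refine Cls_monoA hr0 (by positivity) ?_ (Cls_mono hκ2 hr0 hκ1 hG')
      gcongr
      linarith
    · refine EnX_mono hr0 (by positivity) ?_
        (h2 κ R r A G G' S z₁ hκ0 hκ hR (by linarith) hRr (hrC.trans e2) hA hG.1.1 hG.1.2.1 hG.2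
          hG'.1 hTF)
      calc C₂ * A * (R / r) ^ ((m : ℝ) / 2) ≤ (8 * C₁ + C₂) * A * (R / r) ^ ((m : ℝ) / 2) := by
            gcongr
            linarith
        _ = (8 * C₁ + C₂) * 1 * A * (R / r) ^ ((m : ℝ) / 2) := by ring
        _ ≤ (8 * C₁ + C₂) * R ^ δ' * A * (R / r) ^ ((m : ℝ) / 2) := by gcongr

/-- ENBK for the class -/
theorem enbk_KX (hENX : T_ENX) (m L : ℕ) (α : ℝ) : T_ENBK m α (KX m L α) := by
  intro N β δ hβ hδ hN
  obtain ⟨C, hC, h⟩ := hENX m L N β α δ hβ hδ hN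
  refine ⟨C, hC, ?_⟩
  intro κ R A G z₀ hκ0 hκ hR hA hG
  exact h R A G z₀ hR hA hG.1.1 (fun ζ hζ => Rg_mono hκ (by positivity) hκ (hG.1.2.1 ζ hζ)) hG.2

open scoped Classical in
/-- TUB for the class -/
theorem tub_KX (hTBX : T_TBX) (m L : ℕ) (α : ℝ) :
    T_TUB m (min (α / 2) (α - (m : ℝ) / 2)) (KX m L α) := by
  intro β δ B hβ hδ hδ1 hB N hN
  obtain ⟨C, hC, h⟩ := hTBX m L N β α δ hβ hδ hN
  refine ⟨C, hC, ?_⟩
  intro κ R A a b G S hκ0 hκ hR hCR hA ha hb hG hS hSW hSc hSb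
  obtain ⟨W₀, hW₀⟩ := hS
  have hlo : 0 ≤ lo m := by unfold lo; positivity
  have h1 := h R A a b G (S.filter (fun W' => tb R W' = tb R W₀)) (tb R W₀) hR hA ha.le
    (by linarith) hG.1.1
    (fun ζ hζ => Rg_mono (by linarith) (by positivity) (by linarith) (hG.1.2.1 ζ hζ)) hG.2
    (fun W hW => ⟨(Finset.mem_filter.1 hW).2, (hSW W (Finset.mem_filter.1 hW).1).2.1⟩)
    (hSb W₀ hW₀)
  refine h1.trans ?_
  have h2 : R ^ (lo m * δ) ≤ R ^ (2 * lo m * δ) :=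
    Real.rpow_le_rpow_of_exponent_le hR (by nlinarith)
  gcongr

end Pool.Agent.H94.FD
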