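import Pool.Agent.H82.FD.Asm
import Pool.Agent.H94.FD.BroL
import Pool.Agent.H94.FD.ClsK

/-!
Frostman data (MP_ee74d2_an): the level set estimate at all scales for the class
`Cls L ∧ EnX L α`, for all exponents above the threshold.
-/

set_option autoImplicit false

namespace Pool.Agent.H94.FD

open Pool.Agent.H83.G Pool.Agent.H83.G.Chain
open Pool.Agent.H82.G4 Pool.Agent.H82.G4.Chain
open Pool.Agent.H82.FD Pool.Agent.H82.FD.Asm Pool.Agent.H83.FD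

/-- the level set estimate at all scales for an abstract class -/
theorem main_of {m L : ℕ} {α θ x : ℝ} {K0 : KP m} (hm : 1 ≤ m) (hL : 2 * m + 6 ≤ L)
    (hx : 8 ≤ x * (6 * m + 3 - 2 * α - 2 * θ)) (hD : 2 * α + 2 * θ ≤ 3 * m + 1)
    (hx4 : x ≤ 4) (hmx : 2 < m * x) (hcl : IsCl m L K0) (hENB : T_ENBK m α K0)
    (hTUB : T_TUB m θ K0) : T_MAINK m x K0 := by
  have hm0 : (0 : ℝ) < m := by exact_mod_cast hm
  have hx0 : 0 < x := by
    by_contra h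
    nlinarith
  have hD0 : 0 < 6 * (m : ℝ) + 3 - 2 * α - 2 * θ := by linarith
  obtain ⟨x₁, hx₁⟩ : ∃ x₁ : ℝ, x₁ = 8 / (6 * m + 3 - 2 * α - 2 * θ) := ⟨_, rfl⟩
  have h1 : x₁ * (6 * m + 3 - 2 * α - 2 * θ) = 8 := by
    rw [hx₁]; field_simp
  have hx₁0 : 0 < x₁ := by rw [hx₁]; positivity
  have hx₁x : x₁ ≤ x := by
    rw [hx₁, div_le_iff₀ hD0]; exact hx
  have hBAS := pf_BASK a_BASx hm hx0 hx4 hcl
  have hNAR := NARK.pf_NARK m_PUB m_PUS m_LOA m_LOB m_LOI hcl (x := x)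
  have hOEN := OENK.pf_OENK k_GBE m_AMU m_PLN hm hx4 hL hcl
  have hTEN : TENf 3 m K0 α x₁ :=
    pf_TENF Pool.Agent.H22.G.pf_PG4 Pool.Agent.H22.G.pf_HG2 Pool.Agent.H22.G.pf_MU
      Pool.Agent.H22.G.pf_HB m_CBN k_TE1 m_TE2 k_TEJ m_TLS m_AMU 3 m L K0 α x₁ (XA 3 m θ) hm
      (by omega) (fun _ _ _ _ h => hcl.cls h) (xqf_of_tub 3 m θ K0 hTUB)
      (alg_fd m α θ x₁ hm h1 hD)
  have hBRO := pf_BROL hcl hx₁0 hx₁x hx4 hL m_SPK hTEN hENB hOEN a_IND3 m_DCP m_TLS m_AMU m_AEN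
    m_PG1 m_PG2 m_PG3 m_PSX m_LWX m_CBN m_WT3
  have hREC := RECK.pf_RECK a_BRN8 m_ENS m_PUX m_WT3 hm hx0 hmx hcl hBAS hNAR hBRO
  exact MAINK.pf_MAINK hmx hREC hBAS

/-- the level set estimate at all scales for the class `Cls L ∧ EnX L α` -/
theorem maink_KX (hRSX : T_RSX) (hCPX : T_CPX) (hSCX : T_SCX) (hENX : T_ENX) (hTBX : T_TBX)
    {m L : ℕ} {α x : ℝ} (hm : 1 ≤ m) (hL : 4 * m + 20 ≤ L) (hα : α ≤ m + 1 / 3)
    (hx : 8 ≤ x * (6 * m + 3 - 2 * α - 2 * min (α / 2) (α - (m : ℝ) / 2))) (hx4 : x ≤ 4)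
    (hmx : 2 < m * x) : T_MAINK m x (KX m L α) := by
  refine main_of hm (by omega) hx ?_ hx4 hmx
    (isCl_KX m_RSC m_CPC m_SSC hRSX hCPX hSCX α hL) (enbk_KX hENX m L α) (tub_KX hTBX m L α)
  rcases le_total α m with h | h
  · have := min_le_right (α / 2) (α - (m : ℝ) / 2)
    linarith
  · have := min_le_left (α / 2) (α - (m : ℝ) / 2)
    linarith

end Pool.Agent.H94.FD
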