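import Pool.Agent.H86.FD.Tar

/-!
MP_ee74d2_an, theorem FD, data layer: sup bound of the part of the data in a cap.
-/

set_option autoImplicit false

namespace Pool.Agent.H94.FD.KSU

open MeasureTheory Set FourierTransform
open scoped ENNReal NNReal RealInnerProductSpace
open Pool.Agent.H83.LS Pool.Agent.H19.LS
open Pool.Agent.H81.GT Pool.Agent.H86.FD
open Pool.Agent.H83.G (Z sR)

variable {n : ℕ}

theorem meas_Th (η : EE n) (s : ℝ) : MeasurableSet (Th η s) := by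
  have h1 : MeasurableSet {θ : EE n | ‖θ - η‖ ≤ 4 * s} :=
    measurableSet_le (measurable_id.sub_const η).norm measurable_const
  have h2 : MeasurableSet {θ : EE n | ‖θ‖ ≤ 1 / 3} :=
    measurableSet_le measurable_norm measurable_const
  exact h1.inter h2

theorem vol_Th (n : ℕ) : ∃ V : ℝ, 0 < V ∧ ∀ (η : EE n) (s : ℝ), 0 < s →
    volume (Th η s) ≤ ENNReal.ofReal (V * s ^ n) := by
  have hv : volume (Metric.closedBall (0 : EE n) 1) ≠ ⊤ := measure_closedBall_lt_top.ne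
  refine ⟨4 ^ n * (volume (Metric.closedBall (0 : EE n) 1)).toReal + 1, by positivity, ?_⟩
  intro η s hs
  have h1 : Th η s ⊆ Metric.closedBall η (4 * s) := by
    intro θ hθ
    rw [Metric.mem_closedBall, dist_eq_norm]
    exact hθ.1
  refine (measure_mono h1).trans ?_
  rw [Measure.addHaar_closedBall' _ _ (by positivity), finrank_euclideanSpace, Fintype.card_fin,
    ← ENNReal.ofReal_toReal hv, ← ENNReal.ofReal_mul (by positivity)]
  apply ENNReal.ofReal_le_ofReal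
  rw [ENNReal.toReal_ofReal ENNReal.toReal_nonneg, mul_pow]
  have : 0 < s ^ n := by positivity
  nlinarith

theorem Wz_one_le (s : ℝ) (z : Z n) (θ : EE n) (hs : 0 < s) : 1 ≤ Wz s z θ := by
  unfold Wz sg
  have h1 : 0 ≤ |Qz z θ| := abs_nonneg _
  have h2 : 0 ≤ s / (16 * Real.sqrt (1 + s ^ 2 * |z.2.2|)) * ‖Yz z θ‖ := by positivity
  linarith

/-- the kernel at the time `0` -/
theorem ker_cap (hPKB : T_PKB) (hPOW : T_POW) (hCOV : T_COV) (M : ℕ) {κ : ℝ}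
    {a : EE (n + 1) → ℂ} (hn : 1 ≤ n) (hκ : κ ≤ 1 / 8) (ha : SymE n κ a) :
    ∃ C : ℝ, 0 < C ∧ ∀ (η : EE n) (s : ℝ) (x : EE (n + 1)), 0 < s → s ≤ 1 →
    ‖Kt (ac a η s) 0 x‖ₑ ≤ ENNReal.ofReal (C * s ^ n * ((1 + s * ‖x‖) ^ M)⁻¹) := by
  obtain ⟨C1, hC1, hK⟩ := hPKB n (2 * M) κ a hn hκ ha
  obtain ⟨C2, hC2, hP⟩ := hPOW n
  obtain ⟨V, hV, hvol⟩ := vol_Th n
  refine ⟨C1 * (1 + 6 * C2) ^ M * V, by positivity, ?_⟩
  intro η s x hs hs1
  obtain ⟨hx, ht⟩ := (hCOV n).1 x 0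
  have h1 := hK η s (zt x 0) hs hs1
  rw [hx, ht] at h1
  refine h1.trans ?_
  have hW : ∀ θ ∈ Th η s, (Wz s (zt x 0) θ ^ (2 * M))⁻¹ ≤
      (1 + 6 * C2) ^ M * ((1 + s * ‖x‖) ^ M)⁻¹ := by
    intro θ hθ
    have hW1 := Wz_one_le s (zt x 0) θ hs
    have hW0 : 0 < Wz s (zt x 0) θ := by linarith
    have h2 := (hP s (zt x 0) θ hs hs1 hθ.2).1
    rw [ht, abs_zero] at h2
    have h3 : ‖x‖ ≤ 3 * ‖zt x 0‖ := by
      have := xz_norm (zt x 0)
      rwa [hx] at this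
    have hsi : 1 ≤ s⁻¹ := (one_le_inv₀ hs).2 hs1
    have h4 : s * (1 + ‖zt x 0‖) ≤ 2 * C2 * Wz s (zt x 0) θ ^ 2 := by
      calc s * (1 + ‖zt x 0‖) ≤ s * (C2 * (1 + 0 + s⁻¹) * Wz s (zt x 0) θ ^ 2) :=
            mul_le_mul_of_nonneg_left h2 hs.le
        _ ≤ s * (C2 * (2 * s⁻¹) * Wz s (zt x 0) θ ^ 2) := by
            gcongr
            linarith
        _ = 2 * C2 * Wz s (zt x 0) θ ^ 2 := by field_simp
    have h5 : 1 ≤ Wz s (zt x 0) θ ^ 2 := one_le_pow₀ hW1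
    have h6 : 1 + s * ‖x‖ ≤ (1 + 6 * C2) * Wz s (zt x 0) θ ^ 2 := by
      have : s * ‖x‖ ≤ s * (3 * ‖zt x 0‖) := mul_le_mul_of_nonneg_left h3 hs.le
      nlinarith
    have h7 : (1 + s * ‖x‖) ^ M ≤ (1 + 6 * C2) ^ M * Wz s (zt x 0) θ ^ (2 * M) := by
      calc (1 + s * ‖x‖) ^ M ≤ ((1 + 6 * C2) * Wz s (zt x 0) θ ^ 2) ^ M :=
            pow_le_pow_left₀ (by positivity) h6 _
        _ = _ := by rw [mul_pow, ← pow_mul]
    rw [← div_eq_mul_inv, le_div_iff₀ (by positivity), inv_mul_le_iff₀ (by positivity)]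
    calc (1 + s * ‖x‖) ^ M ≤ _ := h7
      _ = _ := by ring
  calc ENNReal.ofReal C1 * ∫⁻ θ in Th η s, ENNReal.ofReal ((Wz s (zt x 0) θ ^ (2 * M))⁻¹)
      ≤ ENNReal.ofReal C1 * ∫⁻ _θ in Th η s,
          ENNReal.ofReal ((1 + 6 * C2) ^ M * ((1 + s * ‖x‖) ^ M)⁻¹) :=
        mul_le_mul' le_rfl
          (setLIntegral_mono' (meas_Th η s) fun θ hθ => ENNReal.ofReal_le_ofReal (hW θ hθ))
    _ = ENNReal.ofReal C1 * (ENNReal.ofReal ((1 + 6 * C2) ^ M * ((1 + s * ‖x‖) ^ M)⁻¹) *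
          volume (Th η s)) := by rw [setLIntegral_const]
    _ ≤ ENNReal.ofReal C1 * (ENNReal.ofReal ((1 + 6 * C2) ^ M * ((1 + s * ‖x‖) ^ M)⁻¹) *
          ENNReal.ofReal (V * s ^ n)) := by
        gcongr
        exact hvol η s hs
    _ = _ := by
        rw [← ENNReal.ofReal_mul (by positivity), ← ENNReal.ofReal_mul hC1.le]
        congr 1
        ring

/-- the far part of the majorant -/
theorem far_pt {s Q : ℝ} (hs : 0 < s) (hs1 : s ≤ 1) (hQ : 0 < Q) (k : ℕ) (u : EE (n + 1))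
    (hu : Q ≤ s * ‖u‖) : ((1 + s * ‖u‖) ^ (k + (n + 2)))⁻¹ ≤
      (Q ^ k)⁻¹ * (s ^ (n + 2))⁻¹ * kf (n + 1) u := by
  have hu0 : 0 ≤ ‖u‖ := norm_nonneg _
  have e1 : kf (n + 1) u = ((1 + ‖u‖) ^ (n + 2))⁻¹ := by
    unfold kf
    have h1 : (((n + 1 : ℕ) : ℝ) + 1) = ((n + 2 : ℕ) : ℝ) := by push_cast; ring
    rw [h1, Real.rpow_neg (by positivity), Real.rpow_natCast]
  rw [e1, ← mul_inv, ← mul_inv]
  apply inv_anti₀ (by positivity)
  have h2 : s * (1 + ‖u‖) ≤ 1 + s * ‖u‖ := by nlinarith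
  have h3 : Q ≤ 1 + s * ‖u‖ := by linarith
  rw [pow_add (1 + s * ‖u‖) k (n + 2), mul_assoc, ← mul_pow]
  exact mul_le_mul (pow_le_pow_left₀ hQ.le h3 _) (pow_le_pow_left₀ (by positivity) h2 _)
    (by positivity) (by positivity)

theorem kf_shift (d : ℕ) (x : EE d) :
    ∫⁻ y, ENNReal.ofReal (kf d (x - y)) = ∫⁻ y, ENNReal.ofReal (kf d y) :=
  lintegral_sub_left_eq_self (fun y => ENNReal.ofReal (kf d y)) x

theorem kf_nonneg (d : ℕ) (x : EE d) : 0 ≤ kf d x := by unfold kf; positivity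

/-- numerology -/
theorem ksu_num {δ α δ' R A s C I : ℝ} (hR : 1 ≤ R) (hA : 0 < A) (hs : 0 < s) (hs1 : s ≤ 1)
    (hsR : sR R ≤ s) (hα : 0 < α) (hδ' : 0 < δ') (hδα : δ' * α ≤ δ) (hδ : 0 < δ)
    (hC : 0 < C) (hI : 0 ≤ I) (k : ℕ) (hk : ((n : ℝ) + 2) / 2 ≤ δ' * k) :
    C * s ^ n * (A * (R ^ δ' / s) ^ α) +
      C * s ^ n * A * (((R ^ δ') ^ k)⁻¹ * (s ^ (n + 2))⁻¹) * I ≤
      C * (1 + I) * R ^ δ * (A * s ^ ((n : ℝ) - α)) := by
  have hR0 : 0 < R := by linarith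
  have e1 : s ^ ((n : ℝ) - α) = s ^ n / s ^ α := by
    rw [Real.rpow_sub hs, Real.rpow_natCast]
  have hRδ : 1 ≤ R ^ δ := Real.one_le_rpow hR hδ.le
  have h1 : C * s ^ n * (A * (R ^ δ' / s) ^ α) ≤ C * R ^ δ * (A * s ^ ((n : ℝ) - α)) := by
    rw [e1, Real.div_rpow (by positivity) hs.le, ← Real.rpow_mul hR0.le]
    have h2 : R ^ (δ' * α) ≤ R ^ δ := Real.rpow_le_rpow_of_exponent_le hR hδα
    calc C * s ^ n * (A * (R ^ (δ' * α) / s ^ α)) = C * R ^ (δ' * α) * (A * (s ^ n / s ^ α)) := by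
          ring
      _ ≤ _ := by gcongr
  have h3 : s⁻¹ ≤ Real.sqrt R := by
    unfold sR at hsR
    have hsq : 0 < Real.sqrt R := Real.sqrt_pos.2 hR0
    rw [inv_le_comm₀ hs hsq]
    exact hsR
  have h4 : (s ^ (n + 2))⁻¹ ≤ (R ^ δ') ^ k := by
    calc (s ^ (n + 2))⁻¹ = (s⁻¹) ^ (n + 2) := by rw [inv_pow]
      _ ≤ (Real.sqrt R) ^ (n + 2) := pow_le_pow_left₀ (by positivity) h3 _
      _ = R ^ (((n : ℝ) + 2) / 2) := by
          rw [Real.sqrt_eq_rpow, ← Real.rpow_natCast, ← Real.rpow_mul hR0.le]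
          congr 1
          push_cast
          ring
      _ ≤ R ^ (δ' * k) := Real.rpow_le_rpow_of_exponent_le hR hk
      _ = (R ^ δ') ^ k := by rw [Real.rpow_mul hR0.le, Real.rpow_natCast]
  have h5 : ((R ^ δ') ^ k)⁻¹ * (s ^ (n + 2))⁻¹ ≤ 1 := by
    rw [inv_mul_le_iff₀ (by positivity), mul_one]
    exact h4
  have h6 : s ^ n ≤ s ^ ((n : ℝ) - α) := by
    rw [← Real.rpow_natCast]
    exact Real.rpow_le_rpow_of_exponent_ge hs hs1 (by linarith)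
  have h7 : C * s ^ n * A * (((R ^ δ') ^ k)⁻¹ * (s ^ (n + 2))⁻¹) * I ≤
      C * I * R ^ δ * (A * s ^ ((n : ℝ) - α)) := by
    calc C * s ^ n * A * (((R ^ δ') ^ k)⁻¹ * (s ^ (n + 2))⁻¹) * I ≤
          C * s ^ ((n : ℝ) - α) * A * 1 * I := by gcongr
      _ = 1 * (C * I * (A * s ^ ((n : ℝ) - α))) := by ring
      _ ≤ R ^ δ * (C * I * (A * s ^ ((n : ℝ) - α))) := by gcongr
      _ = _ := by ring
  linarith

/-- KSU: sup bound of the part of the data in a cap -/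
theorem pf_KSU (hPKB : T_PKB) (hPOW : T_POW) (hPLE : T_PLE) (hACS : T_ACS) (hCOV : T_COV) :
    T_KSU := by
  intro n κ δ α a hn hκ ha hδ hα hαn
  obtain ⟨δ', hδ'0, hδ'1, hδ'2⟩ : ∃ δ' : ℝ, 0 < δ' ∧ δ' ≤ 1 / 2 ∧ δ' * α ≤ δ := by
    refine ⟨min (δ / α) (1 / 2), by positivity, min_le_right _ _, ?_⟩
    calc min (δ / α) (1 / 2) * α ≤ δ / α * α :=
          mul_le_mul_of_nonneg_right (min_le_left _ _) hα.le
      _ = δ := by field_simp
  obtain ⟨k, hk⟩ : ∃ k : ℕ, ((n : ℝ) + 2) / 2 ≤ δ' * k := by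
    obtain ⟨k, hk⟩ := exists_nat_ge (((n : ℝ) + 2) / 2 / δ')
    refine ⟨k, ?_⟩
    rw [div_le_iff₀ hδ'0] at hk
    linarith
  obtain ⟨C, hC, hK⟩ := ker_cap hPKB hPOW hCOV (k + (n + 2)) hn hκ ha
  obtain ⟨I, hI0, hI⟩ : ∃ I : ℝ, 0 ≤ I ∧ ∫⁻ y : EE (n + 1), ENNReal.ofReal (kf (n + 1) y) =
      ENNReal.ofReal I :=
    ⟨_, ENNReal.toReal_nonneg, (ENNReal.ofReal_toReal (kf_fin (n + 1))).symm⟩
  refine ⟨C * (1 + I), by positivity, ?_⟩
  intro R A s η f g hR hA hf hFro hg hgf hsR hs1 x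
  have hR0 : 0 < R := by linarith
  have hsR0 : 0 < sR R := by unfold sR; positivity
  have hs : 0 < s := lt_of_lt_of_le hsR0 hsR
  obtain ⟨Q, hQ⟩ : ∃ Q : ℝ, Q = R ^ δ' := ⟨_, rfl⟩
  have hQ1 : 1 ≤ Q := by rw [hQ]; exact Real.one_le_rpow hR hδ'0.le
  have hQ0 : 0 < Q := by linarith
  obtain ⟨ρ, hρ⟩ : ∃ ρ : ℝ, ρ = Q / s := ⟨_, rfl⟩
  have hρ1 : 1 ≤ ρ := by
    rw [hρ, le_div_iff₀ hs]
    linarith
  have hρR : ρ ≤ R := by
    have h3 : s⁻¹ ≤ Real.sqrt R := by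
      unfold sR at hsR
      have hsq : 0 < Real.sqrt R := Real.sqrt_pos.2 hR0
      rw [inv_le_comm₀ hs hsq]
      exact hsR
    have h4 : Q ≤ Real.sqrt R := by
      rw [hQ, Real.sqrt_eq_rpow]
      exact Real.rpow_le_rpow_of_exponent_le hR hδ'1
    rw [hρ, div_eq_mul_inv]
    calc Q * s⁻¹ ≤ Real.sqrt R * Real.sqrt R := by gcongr
      _ = R := Real.mul_self_sqrt hR0.le
  have hSym := (hACS n κ s η a hκ ha hs).1
  rw [Ua_conv hSym hPLE 0 hg x]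
  have hB : MeasurableSet (Metric.closedBall x ρ) := measurableSet_closedBall
  obtain ⟨F, hF⟩ : ∃ F : EE (n + 1) → ℝ≥0∞, F = fun y =>
    ENNReal.ofReal (C * s ^ n * ((1 + s * ‖x - y‖) ^ (k + (n + 2)))⁻¹) * ‖g y‖ₑ := ⟨_, rfl⟩
  have h1 : ‖∫ y, Kt (ac a η s) 0 (x - y) * g y‖ₑ ≤ ∫⁻ y, F y := by
    refine (enorm_integral_le_lintegral_enorm _).trans (lintegral_mono fun y => ?_)
    rw [hF, enorm_mul]
    exact mul_le_mul' (hK η s (x - y) hs hs1) le_rfl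
  rw [← lintegral_add_compl F hB] at h1
  have hnear : ∫⁻ y in Metric.closedBall x ρ, F y ≤ ENNReal.ofReal (C * s ^ n * (A * ρ ^ α)) := by
    calc ∫⁻ y in Metric.closedBall x ρ, F y
        ≤ ∫⁻ y in Metric.closedBall x ρ, ENNReal.ofReal (C * s ^ n) * ‖f y‖ₑ := by
          refine lintegral_mono fun y => ?_
          rw [hF]
          refine mul_le_mul' (ENNReal.ofReal_le_ofReal ?_) ?_
          · have : ((1 + s * ‖x - y‖) ^ (k + (n + 2)))⁻¹ ≤ 1 :=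
              inv_le_one_of_one_le₀ (one_le_pow₀ (by
                have : 0 ≤ s * ‖x - y‖ := by positivity
                linarith))
            exact mul_le_of_le_one_right (by positivity) this
          · rw [← ofReal_norm, ← ofReal_norm]
            exact ENNReal.ofReal_le_ofReal (hgf y)
      _ = ENNReal.ofReal (C * s ^ n) * ∫⁻ y in Metric.closedBall x ρ, ‖f y‖ₑ :=
          lintegral_const_mul' _ _ ENNReal.ofReal_ne_top
      _ ≤ ENNReal.ofReal (C * s ^ n) * ENNReal.ofReal (A * ρ ^ α) :=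
          mul_le_mul' le_rfl (hFro x ρ hρ1 hρR)
      _ = _ := (ENNReal.ofReal_mul (by positivity)).symm
  have hfar : ∫⁻ y in (Metric.closedBall x ρ)ᶜ, F y ≤
      ENNReal.ofReal (C * s ^ n * A * ((Q ^ k)⁻¹ * (s ^ (n + 2))⁻¹) * I) := by
    calc ∫⁻ y in (Metric.closedBall x ρ)ᶜ, F y
        ≤ ∫⁻ y in (Metric.closedBall x ρ)ᶜ,
            ENNReal.ofReal (C * s ^ n * A * ((Q ^ k)⁻¹ * (s ^ (n + 2))⁻¹)) *
              ENNReal.ofReal (kf (n + 1) (x - y)) := by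
          refine setLIntegral_mono' hB.compl fun y hy => ?_
          have hy' : Q ≤ s * ‖x - y‖ := by
            rw [mem_compl_iff, Metric.mem_closedBall, not_le, dist_comm, dist_eq_norm, hρ,
              div_lt_iff₀ hs] at hy
            linarith
          have h2 := far_pt hs hs1 hQ0 k (x - y) hy'
          have h3 : ‖g y‖ₑ ≤ ENNReal.ofReal A := by
            rw [← ofReal_norm]
            exact ENNReal.ofReal_le_ofReal ((hgf y).trans (hf.2.1 y))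
          rw [hF, ← ENNReal.ofReal_mul (by positivity)]
          refine (mul_le_mul' le_rfl h3).trans ?_
          rw [← ENNReal.ofReal_mul (by positivity)]
          apply ENNReal.ofReal_le_ofReal
          calc C * s ^ n * ((1 + s * ‖x - y‖) ^ (k + (n + 2)))⁻¹ * A
              ≤ C * s ^ n * ((Q ^ k)⁻¹ * (s ^ (n + 2))⁻¹ * kf (n + 1) (x - y)) * A := by gcongr
            _ = _ := by ring
      _ ≤ ∫⁻ y, ENNReal.ofReal (C * s ^ n * A * ((Q ^ k)⁻¹ * (s ^ (n + 2))⁻¹)) *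
              ENNReal.ofReal (kf (n + 1) (x - y)) := setLIntegral_le_lintegral _ _
      _ = ENNReal.ofReal (C * s ^ n * A * ((Q ^ k)⁻¹ * (s ^ (n + 2))⁻¹)) * ENNReal.ofReal I := by
          rw [lintegral_const_mul' _ _ ENNReal.ofReal_ne_top, kf_shift, hI]
      _ = _ := (ENNReal.ofReal_mul (by positivity)).symm
  refine (h1.trans (add_le_add hnear hfar)).trans ?_
  rw [← ENNReal.ofReal_add (by positivity) (by positivity)]
  apply ENNReal.ofReal_le_ofReal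
  rw [hρ, hQ]
  exact ksu_num hR hA hs hs1 hsR hα hδ'0 hδ'2 hδ hC hI0 k hk

end Pool.Agent.H94.FD.KSU
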