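import Pool.Agent.H81.GT.LEVX
import Pool.Agent.H88.FD.TargetsC

/-!
Frostman data (MP_ee74d2_an): from the level sets to `SECX` (after `Pool.Agent.H81.GT.LEVX`).
-/

set_option autoImplicit false

namespace Pool.Agent.H94.FD.LVF

open MeasureTheory Set FourierTransform
open scoped ENNReal NNReal RealInnerProductSpace
open Pool.Agent.H83.LS Pool.Agent.H81.GT
open Pool.Agent.H83.G (Z TF Rg Cls pl Lo Bp TP Sep)
open Pool.Agent.H83.FD (EnX)
open Pool.Agent.H94.FD (KX EnX_mono)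
open Pool.Agent.H82.FD (T_MAINK BdK)
open Pool.Agent.H88.FD (MorR SECX T_DAT T_LVF)
open Pool.Agent.H83.G.BRO (Cls_monoA)

/-- LVF: from the level sets to `SECX` -/
theorem pf_LVF (hDAT : T_DAT) (hTX : T_TX) (hCOV : T_COV) (hREP : T_REP) (hGL2 : T_GL2)
    (hCLS : T_CLS) (hSPK : Pool.Agent.H83.G.T_SPK) (hPUX : Pool.Agent.H83.G.T_PUX)
    (hSCH : Pool.Agent.H83.G.T_SCH) : T_LVF := by
  intro n L α x q hn hL hα hα1 hx0 hMAIN hq' η a hη ha
  obtain ⟨κ, hκe⟩ : ∃ κ : ℝ, κ = 1 / 8 := ⟨_, rfl⟩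
  have hκ : κ ≤ 1 / 8 := hκe.le
  rw [← hκe] at ha
  have hq2 : 2 < q := by linarith
  obtain ⟨X, χ, hX⟩ := hTX
  obtain ⟨β, hβ⟩ := hPUX n
  set δ : ℝ := η / (2 * q) with hδ
  have hδ0 : 0 < δ := by positivity
  have hεδ : η / 2 + δ * (q - 2) ≤ η := by
    have : δ * q = η / 2 := by rw [hδ]; field_simp
    nlinarith
  obtain ⟨Cm, hCm, hm⟩ := hMAIN (η / 2) (by positivity)
  obtain ⟨Cc₁, hCc₁, hc₁⟩ := hCLS n L κ δ a X χ hn hL hκ ha hX hδ0
  obtain ⟨Cc₂, hCc₂, hc₂⟩ := hDAT n L κ δ α a X χ hn hL hκ ha hX hδ0 hα hα1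
  obtain ⟨Cc, hCc, hCcc₁, hCcc₂⟩ : ∃ Cc : ℝ, 0 < Cc ∧ Cc₁ ≤ Cc ∧ Cc₂ ≤ Cc :=
    ⟨max Cc₁ Cc₂, by positivity, le_max_left _ _, le_max_right _ _⟩
  obtain ⟨Cg, hCg, hg⟩ := hGL2 n κ a X χ hκ ha hX
  obtain ⟨Cs, hCs, hs⟩ := hSPK n L β hβ
  set c₀ : ℝ≥0∞ := volume (Metric.ball (0 : Z n) 1) with hc₀
  have hc₀t : c₀ ≠ ⊤ := by
    have := haarZ n
    exact measure_ball_lt_top.ne
  set C₁ : ℝ := q / (q - (2 + x)) * (Cs ^ (q - (2 + x)) * Cc ^ (q - 2) * Cm * Cg) with hC₁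
  have hC₁0 : 0 < C₁ := by
    have : 0 < q - (2 + x) := by linarith
    positivity
  refine ⟨(2 * c₀ * ENNReal.ofReal C₁).toNNReal, ?_⟩
  intro R A f hR hf hMor
  have hR0 : 0 < R := by linarith
  rw [ENNReal.coe_toNNReal (by finiteness)]
  have hA0 : 0 ≤ A := (norm_nonneg (f 0)).trans (hf.2.1 0)
  rcases hA0.eq_or_lt with hA | hA
  · have hf0 : f = 0 := by
      funext x
      have := hf.2.1 x
      rw [← hA] at this
      exact norm_le_zero_iff.1 this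
    have : ∀ t x, Ua a t f x = 0 := by
      intro t x
      unfold Ua MM
      have h0 : 𝓕 f = 0 := by
        rw [hf0]
        funext ξ
        simp [Real.fourier_eq]
      rw [h0]
      simp
    simp only [this]
    rw [lintegral_congr (g := fun _ => 0)]
    · simp
    · intro t
      rw [lintegral_congr (g := fun _ => 0)]
      · simp
      · intro x
        rw [enorm_zero, ENNReal.zero_rpow_of_pos (by linarith)]
  set G := Gf X R a f with hG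
  obtain ⟨hTC, hRg, hrep⟩ := hREP n κ R A a f X χ hκ ha hX hR hf
  have hcls : KX n L α (1 / 4) R (Cc * R ^ δ * A) (Gf X R a f) := by
    refine ⟨Cls_monoA hR0 (by positivity) ?_ (hc₁ R A f hR hA hf),
      EnX_mono hR0 (by positivity) ?_ (hc₂ R A f hR hA hf hMor)⟩
    · gcongr
    · gcongr
  have hA' : 0 < Cc * R ^ δ * A := by positivity
  have hmain := fun (H : ℝ) (hH : 0 < H) (X' : Finset (Z n)) (hX' : Sep X')
    (h : ∀ z ∈ X', H ≤ ‖TF G z‖) => hm R hR (Cc * R ^ δ * A) H G X' hA' hH hcls hX' h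
  set K : ℝ := Cm * R ^ (η / 2) * (Cc * R ^ δ * A) ^ x * R ^ ((n : ℝ) * x / 2 - 1) *
    ∫ ζ, ‖G ζ‖ ^ 2 with hK
  have hI0 : 0 ≤ ∫ ζ, ‖G ζ‖ ^ 2 := integral_nonneg fun ζ => by positivity
  have hK0 : 0 ≤ K := by positivity
  set B : ℝ := Cs * (Cc * R ^ δ * A) * R ^ ((n : ℝ) / 2) with hB
  have hB0 : 0 < B := by positivity
  have hsup : ∀ z, ‖TF G z‖ ≤ B :=
    (hs (1 / 4) R (Cc * R ^ δ * A) G (by norm_num) (by norm_num) hR hA' hcls.1).2
  have hcont : Continuous (TF G) := (hSCH n G hTC).1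
  have h1 := lev_cake (F := fun z => ‖TF G z‖) hcont.norm.measurable (fun z => norm_nonneg _)
    hK0 hB0 (by positivity) hq' (fun H hH X' hX' h => hmain H hH X' hX' h) hsup
  set I : ℝ := (∫⁻ x, ‖f x‖ₑ ^ 2).toReal with hI
  have hI0' : 0 ≤ I := ENNReal.toReal_nonneg
  have hft : ∫⁻ x, ‖f x‖ₑ ^ 2 ≠ ⊤ := by
    obtain ⟨ρ, hρ⟩ := hf.2.2
    have : ∫⁻ x, ‖f x‖ₑ ^ 2 ≤ ENNReal.ofReal (A ^ 2) * volume (Metric.closedBall (0 : EE (n + 1)) ρ) := by
      rw [← setLIntegral_const, ← lintegral_indicator measurableSet_closedBall]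
      refine lintegral_mono fun x => ?_
      by_cases hx : x ∈ Metric.closedBall (0 : EE (n + 1)) ρ
      · rw [indicator_of_mem hx, ← ofReal_norm, ← ENNReal.ofReal_pow (norm_nonneg _)]
        apply ENNReal.ofReal_le_ofReal
        have := hf.2.1 x
        have h0 := norm_nonneg (f x)
        nlinarith
      · rw [indicator_of_notMem hx, hρ x (by simpa using hx)]
        simp
    exact ne_top_of_le_ne_top (by
      exact ENNReal.mul_ne_top ENNReal.ofReal_ne_top measure_closedBall_lt_top.ne) this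
  have h2 : K ≤ Cm * R ^ (η / 2) * (Cc * R ^ δ * A) ^ x * R ^ ((n : ℝ) * x / 2 - 1) * (Cg * R * I) := by
    rw [hK]
    gcongr
    exact hg R A f hR hf
  have h3 : q / (q - (2 + x)) * (B ^ (q - (2 + x)) * K) ≤
      C₁ * (R ^ ((n : ℝ) * (q / 2 - 1) + η) * A ^ (q - 2) * I) := by
    have h4 := levx_const (n := n) (x := x) (q := q) (ε := η / 2) (δ := δ) (η := η) hR hA hCc hCm hCg
      hCs hI0' hεδ
    have h5 : 0 < q - (2 + x) := by linarith
    calc q / (q - (2 + x)) * (B ^ (q - (2 + x)) * K) ≤ q / (q - (2 + x)) *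
          (B ^ (q - (2 + x)) *
            (Cm * R ^ (η / 2) * (Cc * R ^ δ * A) ^ x * R ^ ((n : ℝ) * x / 2 - 1) * (Cg * R * I))) := by
          gcongr
      _ ≤ q / (q - (2 + x)) * (Cs ^ (q - (2 + x)) * Cc ^ (q - 2) * Cm * Cg *
            (R ^ ((n : ℝ) * (q / 2 - 1) + η) * A ^ (q - 2) * I)) := by
          gcongr
      _ = _ := by rw [hC₁]; ring
  have hmF : Measurable (fun z : Z n => ‖TF G z‖ₑ ^ q) := hcont.enorm.measurable.pow_const q
  have h4 : ∫⁻ t in Icc R (2 * R), ∫⁻ x, ‖Ua a t f x‖ₑ ^ q ≤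
      2 * ∫⁻ z, ‖TF G z‖ₑ ^ q := by
    have h5 := (hCOV n).2.2.1 (fun z => ‖TF G z‖ₑ ^ q) hmF
    have h6 : 2 * ∫⁻ z, ‖TF G z‖ₑ ^ q =
        ∫⁻ t : ℝ, ∫⁻ x : EE (n + 1), ‖TF G (zt x t)‖ₑ ^ q := by
      rw [h5, ← mul_assoc, ENNReal.mul_inv_cancel (by norm_num) (by norm_num), one_mul]
    rw [h6]
    rw [← lintegral_indicator measurableSet_Icc]
    refine lintegral_mono fun t => ?_
    by_cases ht : t ∈ Icc R (2 * R)
    · rw [indicator_of_mem ht]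
      refine lintegral_mono fun x => ?_
      refine ENNReal.rpow_le_rpow ?_ (by linarith)
      rw [hrep, ((hCOV n).1 x t).1, ((hCOV n).1 x t).2, enorm_mul]
      have h7 : 1 ≤ ‖χ (t / R)‖ := hX.2.2.2.1 _ ⟨by rw [le_div_iff₀ hR0]; linarith [ht.1],
        by rw [div_le_iff₀ hR0]; exact ht.2⟩
      have h8 : (1 : ℝ≥0∞) ≤ ‖χ (t / R)‖ₑ := by
        rw [← ofReal_norm]
        exact ENNReal.one_le_ofReal.2 h7
      exact le_mul_of_one_le_right zero_le h8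
    · rw [indicator_of_notMem ht]
      exact zero_le
  have h5 : ∫⁻ z, ‖TF G z‖ₑ ^ q = ∫⁻ z, ENNReal.ofReal (‖TF G z‖ ^ q) := by
    refine lintegral_congr fun z => ?_
    rw [← ofReal_norm, ENNReal.ofReal_rpow_of_nonneg (norm_nonneg _) (by linarith)]
  rw [h5] at h4
  refine h4.trans ?_
  calc 2 * ∫⁻ z, ENNReal.ofReal (‖TF G z‖ ^ q)
      ≤ 2 * (c₀ * ENNReal.ofReal (C₁ * (R ^ ((n : ℝ) * (q / 2 - 1) + η) * A ^ (q - 2) * I))) := by
        gcongr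
        exact h1.trans (mul_le_mul_right (ENNReal.ofReal_le_ofReal h3) _)
    _ = 2 * c₀ * ENNReal.ofReal C₁ *
        ENNReal.ofReal (R ^ ((n : ℝ) * (q / 2 - 1) + η) * A ^ (q - 2)) * ∫⁻ x, ‖f x‖ₑ ^ 2 := by
        have hP0 : 0 ≤ R ^ ((n : ℝ) * (q / 2 - 1) + η) * A ^ (q - 2) := by positivity
        have e7 : ENNReal.ofReal (C₁ * (R ^ ((n : ℝ) * (q / 2 - 1) + η) * A ^ (q - 2) * I)) =
            ENNReal.ofReal C₁ * (ENNReal.ofReal (R ^ ((n : ℝ) * (q / 2 - 1) + η) * A ^ (q - 2)) *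
              ENNReal.ofReal I) := by
          rw [← ENNReal.ofReal_mul hP0, ← ENNReal.ofReal_mul hC₁0.le]
        have e8 : ENNReal.ofReal I = ∫⁻ x, ‖f x‖ₑ ^ 2 := ENNReal.ofReal_toReal hft
        rw [e7, e8]
        ring

end Pool.Agent.H94.FD.LVF
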