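import Pool.Agent.H94.FD.KSU

/-!
MP_ee74d2_an, theorem FD, data layer: the kernel of a cap at the time `0` is bounded in `L¹`.
-/

set_option autoImplicit false

namespace Pool.Agent.H94.FD.KSV

open MeasureTheory Set FourierTransform
open scoped ENNReal NNReal RealInnerProductSpace
open Pool.Agent.H83.LS Pool.Agent.H19.LS
open Pool.Agent.H81.GT Pool.Agent.H86.FD
open Pool.Agent.H83.G (Z sR)
open Pool.Agent.H54.LS (jo_last pr_jo jo_pr jo_norm_sq mp_jo continuous_pr)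
open Pool.Agent.H94.FD.KSU

variable {n : ℕ}

/-- the weight in one dimension -/
noncomputable def hq (τ : ℝ) : ℝ := (1 + ‖τ‖) ^ (-2 : ℝ)

theorem hq_nonneg (τ : ℝ) : 0 ≤ hq τ := by unfold hq; positivity

theorem hq_meas : Measurable hq := by unfold hq; fun_prop

theorem hq_fin : ∫⁻ τ : ℝ, ENNReal.ofReal (hq τ) ≠ ⊤ := by
  have h1 : Integrable hq := by
    apply integrable_one_add_norm
    rw [Module.finrank_self]
    norm_num
  exact h1.lintegral_lt_top.ne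

theorem int_aff (c b : ℝ) (hc : 1 / 2 ≤ c) : ∫⁻ τ : ℝ, ENNReal.ofReal (hq (c * τ + b)) ≤
    2 * ∫⁻ τ : ℝ, ENNReal.ofReal (hq τ) := by
  have hc0 : 0 < c := by linarith
  have hm : Measurable fun y : ℝ => ENNReal.ofReal (hq (y + b)) :=
    (hq_meas.comp (measurable_add_const b)).ennreal_ofReal
  have h1 : ∫⁻ τ : ℝ, ENNReal.ofReal (hq (c * τ + b)) =
      ∫⁻ y, ENNReal.ofReal (hq (y + b)) ∂(Measure.map (fun τ : ℝ => c * τ) volume) :=
    (lintegral_map hm (measurable_const_mul c)).symm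
  rw [h1, Real.map_volume_mul_left hc0.ne', lintegral_smul_measure,
    lintegral_add_right_eq_self (fun y => ENNReal.ofReal (hq y)) b, smul_eq_mul]
  refine mul_le_mul' ?_ le_rfl
  rw [abs_of_pos (by positivity), ← ENNReal.ofReal_ofNat]
  apply ENNReal.ofReal_le_ofReal
  rw [inv_le_comm₀ hc0 (by norm_num)]
  linarith

theorem int_smul (s : ℝ) (hs : 0 < s) : ∫⁻ u : EE n, ENNReal.ofReal (kf n (s • u)) =
    ENNReal.ofReal ((s ^ n)⁻¹) * ∫⁻ u : EE n, ENNReal.ofReal (kf n u) := by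
  have hm : Measurable fun y : EE n => ENNReal.ofReal (kf n y) := by unfold kf; fun_prop
  have h1 : ∫⁻ u : EE n, ENNReal.ofReal (kf n (s • u)) =
      ∫⁻ y, ENNReal.ofReal (kf n y) ∂(Measure.map (fun u : EE n => s • u) volume) :=
    (lintegral_map hm (measurable_const_smul s)).symm
  rw [h1, Measure.map_addHaar_smul _ hs.ne', lintegral_smul_measure, smul_eq_mul,
    finrank_euclideanSpace, Fintype.card_fin, abs_of_pos (by positivity)]

/-- the integral of the weight -/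
theorem int_wt (θ : EE n) (s : ℝ) (hs : 0 < s) :
    ∫⁻ x : EE (n + 1), ENNReal.ofReal (kf n (s • Yz (zt x 0) θ) * hq (Qz (zt x 0) θ)) ≤
      2 * (∫⁻ τ : ℝ, ENNReal.ofReal (hq τ)) * (ENNReal.ofReal ((s ^ n)⁻¹) *
        ∫⁻ u : EE n, ENNReal.ofReal (kf n u)) := by
  obtain ⟨c, hc⟩ : ∃ c : ℝ, c = (1 + ‖θ‖ ^ 2) / 2 := ⟨_, rfl⟩
  have hc1 : 1 / 2 ≤ c := by rw [hc]; nlinarith [sq_nonneg ‖θ‖]
  have hkm : Measurable (kf n) := by unfold kf; fun_prop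
  have hYm : Measurable fun x : EE (n + 1) => Yz (zt x 0) θ :=
    ((Yz_cont θ).comp (zt_cont 0)).measurable
  have hQm : Measurable fun x : EE (n + 1) => Qz (zt x 0) θ :=
    ((Qz_cont θ).comp (zt_cont 0)).measurable
  have hFm : Measurable fun x : EE (n + 1) =>
      ENNReal.ofReal (kf n (s • Yz (zt x 0) θ) * hq (Qz (zt x 0) θ)) :=
    ((hkm.comp (hYm.const_smul s)).mul (hq_meas.comp hQm)).ennreal_ofReal
  rw [← (mp_jo n).lintegral_comp hFm]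
  have e1 : ∀ q : EE n × ℝ, Yz (zt (jo q.1 q.2) 0) θ = q.1 - q.2 • θ := by
    intro q
    unfold Yz zt
    simp only [jo_last, pr_jo]
    have e3 : 2 * ((0 - q.2) / 2) = -q.2 := by ring
    rw [e3, neg_smul]
    abel
  have e2 : ∀ q : EE n × ℝ, Qz (zt (jo q.1 q.2) 0) θ = c * q.2 + ⟪q.1 - q.2 • θ, θ⟫ := by
    intro q
    unfold Qz zt
    simp only [jo_last, pr_jo]
    rw [inner_sub_left, real_inner_smul_left, real_inner_self_eq_norm_sq, hc]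
    ring
  have e3 : ∀ q : EE n × ℝ, ENNReal.ofReal (kf n (s • Yz (zt (jo q.1 q.2) 0) θ) *
      hq (Qz (zt (jo q.1 q.2) 0) θ)) = ENNReal.ofReal (kf n (s • (q.1 - q.2 • θ)) *
        hq (c * q.2 + ⟪q.1 - q.2 • θ, θ⟫)) := by
    intro q
    rw [e1, e2]
  simp_rw [e3]
  have hG : Measurable fun q : EE n × ℝ => ENNReal.ofReal (kf n (s • (q.1 - q.2 • θ)) *
        hq (c * q.2 + ⟪q.1 - q.2 • θ, θ⟫)) := by
    have h1 : Measurable fun q : EE n × ℝ => q.1 - q.2 • θ := by fun_prop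
    have h2 : Measurable fun q : EE n × ℝ => c * q.2 + ⟪q.1 - q.2 • θ, θ⟫ := by fun_prop
    exact ((hkm.comp (h1.const_smul s)).mul (hq_meas.comp h2)).ennreal_ofReal
  rw [lintegral_prod_symm _ hG.aemeasurable]
  have e4 : ∀ τ : ℝ, ∫⁻ y : EE n, ENNReal.ofReal (kf n (s • (y - τ • θ)) *
      hq (c * τ + ⟪y - τ • θ, θ⟫)) = ∫⁻ u : EE n, ENNReal.ofReal (kf n (s • u)) *
        ENNReal.ofReal (hq (c * τ + ⟪u, θ⟫)) := by
    intro τ
    rw [lintegral_sub_right_eq_self (fun u : EE n => ENNReal.ofReal (kf n (s • u) *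
      hq (c * τ + ⟪u, θ⟫))) (τ • θ)]
    refine lintegral_congr fun u => ?_
    rw [ENNReal.ofReal_mul (kf_nonneg n _)]
  simp_rw [e4]
  rw [lintegral_lintegral_swap]
  · calc ∫⁻ u : EE n, ∫⁻ τ : ℝ, ENNReal.ofReal (kf n (s • u)) *
          ENNReal.ofReal (hq (c * τ + ⟪u, θ⟫))
        ≤ ∫⁻ u : EE n, ENNReal.ofReal (kf n (s • u)) *
            (2 * ∫⁻ τ : ℝ, ENNReal.ofReal (hq τ)) := by
          refine lintegral_mono fun u => ?_
          rw [lintegral_const_mul' _ _ ENNReal.ofReal_ne_top]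
          exact mul_le_mul' le_rfl (int_aff c _ hc1)
      _ = (∫⁻ u : EE n, ENNReal.ofReal (kf n (s • u))) *
            (2 * ∫⁻ τ : ℝ, ENNReal.ofReal (hq τ)) :=
          lintegral_mul_const' _ _ (ENNReal.mul_ne_top (by norm_num) hq_fin)
      _ = _ := by rw [int_smul s hs, mul_comm]
  · have h1 : Measurable fun p : ℝ × EE n => ENNReal.ofReal (kf n (s • p.2)) *
        ENNReal.ofReal (hq (c * p.1 + ⟪p.2, θ⟫)) := by
      have h2 : Measurable fun p : ℝ × EE n => c * p.1 + ⟪p.2, θ⟫ := by fun_prop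
      exact (hkm.comp (measurable_snd.const_smul s)).ennreal_ofReal.mul
        (hq_meas.comp h2).ennreal_ofReal
    exact h1.aemeasurable

/-- pointwise bound of the weight of the kernel -/
theorem wt_pt (hPOW : T_POW) (hCOV : T_COV) (n : ℕ) : ∃ C : ℝ, 0 < C ∧ ∀ (s : ℝ) (θ : EE n)
    (x : EE (n + 1)), 0 < s → s ≤ 1 → ‖θ‖ ≤ 1 / 3 → (Wz s (zt x 0) θ ^ (2 * (n + 1) + 2))⁻¹ ≤
      C * (kf n (s • Yz (zt x 0) θ) * hq (Qz (zt x 0) θ)) := by
  obtain ⟨C2, hC2, hP⟩ := hPOW n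
  refine ⟨(1 + 2 * C2) ^ (n + 1), by positivity, ?_⟩
  intro s θ x hs hs1 hθ
  obtain ⟨-, ht⟩ := (hCOV n).1 x 0
  have hW1 := Wz_one_le s (zt x 0) θ hs
  have hW0 : 0 < Wz s (zt x 0) θ := by linarith
  have h2 := (hP s (zt x 0) θ hs hs1 hθ).2
  rw [ht, abs_zero, Real.sqrt_zero, add_zero] at h2
  have h3 : s * ‖Yz (zt x 0) θ‖ ≤ C2 * Wz s (zt x 0) θ ^ 2 := by
    calc s * ‖Yz (zt x 0) θ‖ ≤ s * (C2 * Wz s (zt x 0) θ ^ 2 * s⁻¹) :=
          mul_le_mul_of_nonneg_left h2 hs.le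
      _ = _ := by field_simp
  have h5 : 1 ≤ Wz s (zt x 0) θ ^ 2 := one_le_pow₀ hW1
  have h6 : 1 + s * ‖Yz (zt x 0) θ‖ ≤ (1 + 2 * C2) * Wz s (zt x 0) θ ^ 2 := by nlinarith
  have h7 : 1 + |Qz (zt x 0) θ| ≤ Wz s (zt x 0) θ := by
    unfold Wz sg
    have : 0 ≤ s / (16 * Real.sqrt (1 + s ^ 2 * |(zt x 0).2.2|)) * ‖Yz (zt x 0) θ‖ := by
      positivity
    linarith
  have e1 : kf n (s • Yz (zt x 0) θ) = ((1 + s * ‖Yz (zt x 0) θ‖) ^ (n + 1))⁻¹ := by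
    unfold kf
    rw [norm_smul, Real.norm_of_nonneg hs.le]
    have h1 : ((n : ℝ) + 1) = ((n + 1 : ℕ) : ℝ) := by push_cast; ring
    rw [h1, Real.rpow_neg (by positivity), Real.rpow_natCast]
  have e2 : hq (Qz (zt x 0) θ) = ((1 + |Qz (zt x 0) θ|) ^ 2)⁻¹ := by
    unfold hq
    rw [Real.norm_eq_abs, Real.rpow_neg (by positivity)]
    norm_num
  rw [e1, e2]
  have h8 : (1 + s * ‖Yz (zt x 0) θ‖) ^ (n + 1) * (1 + |Qz (zt x 0) θ|) ^ 2 ≤
      (1 + 2 * C2) ^ (n + 1) * Wz s (zt x 0) θ ^ (2 * (n + 1) + 2) := by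
    calc (1 + s * ‖Yz (zt x 0) θ‖) ^ (n + 1) * (1 + |Qz (zt x 0) θ|) ^ 2 ≤
          ((1 + 2 * C2) * Wz s (zt x 0) θ ^ 2) ^ (n + 1) * Wz s (zt x 0) θ ^ 2 := by
          gcongr
      _ = _ := by rw [mul_pow, ← pow_mul, pow_add]; ring
  rw [← mul_inv, ← div_eq_mul_inv, le_div_iff₀ (by positivity), inv_mul_le_iff₀ (by positivity)]
  calc _ ≤ _ := h8
    _ = _ := by ring

/-- KSV: the kernel of a cap at the time `0` is bounded in `L¹` -/
theorem ker_l1 (hPKB : T_PKB) (hPOW : T_POW) (hCOV : T_COV) {κ : ℝ}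
    {a : EE (n + 1) → ℂ} (hn : 1 ≤ n) (hκ : κ ≤ 1 / 8) (ha : SymE n κ a) :
    ∃ C : ℝ, 0 < C ∧ ∀ (η : EE n) (s : ℝ), 0 < s → s ≤ 1 →
    ∫⁻ x, ‖Kt (ac a η s) 0 x‖ₑ ≤ ENNReal.ofReal C := by
  obtain ⟨C1, hC1, hK⟩ := hPKB n (2 * (n + 1) + 2) κ a hn hκ ha
  obtain ⟨C2, hC2, hW⟩ := wt_pt hPOW hCOV n
  obtain ⟨V, hV, hvol⟩ := vol_Th n
  obtain ⟨I1, hI1, hI1e⟩ : ∃ I : ℝ, 0 ≤ I ∧ ∫⁻ τ : ℝ, ENNReal.ofReal (hq τ) =
      ENNReal.ofReal I := ⟨_, ENNReal.toReal_nonneg, (ENNReal.ofReal_toReal hq_fin).symm⟩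
  obtain ⟨I2, hI2, hI2e⟩ : ∃ I : ℝ, 0 ≤ I ∧ ∫⁻ u : EE n, ENNReal.ofReal (kf n u) =
      ENNReal.ofReal I := ⟨_, ENNReal.toReal_nonneg, (ENNReal.ofReal_toReal (kf_fin n)).symm⟩
  refine ⟨C1 * (C2 * (2 * I1 * I2) * V) + 1, by positivity, ?_⟩
  intro η s hs hs1
  have hsn : 0 < s ^ n := by positivity
  obtain ⟨F, hF⟩ : ∃ F : EE n → EE (n + 1) → ℝ≥0∞, F = fun θ x =>
    ENNReal.ofReal C2 * ENNReal.ofReal (kf n (s • Yz (zt x 0) θ) * hq (Qz (zt x 0) θ)) := ⟨_, rfl⟩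
  have hFm : Measurable fun p : EE (n + 1) × EE n => F p.2 p.1 := by
    have hkm : Measurable (kf n) := by unfold kf; fun_prop
    have hz : Continuous fun p : EE (n + 1) × EE n => (zt p.1 0 : Z n) :=
      (zt_cont 0).comp continuous_fst
    have hYc : Continuous fun q : Z n × EE n => Yz q.1 q.2 := by
      unfold Yz
      fun_prop
    have hQc : Continuous fun q : Z n × EE n => Qz q.1 q.2 := by
      unfold Qz
      fun_prop
    have h1 : Continuous fun p : EE (n + 1) × EE n => Yz (zt p.1 0) p.2 :=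
      hYc.comp (hz.prodMk continuous_snd)
    have h2 : Continuous fun p : EE (n + 1) × EE n => Qz (zt p.1 0) p.2 :=
      hQc.comp (hz.prodMk continuous_snd)
    rw [hF]
    exact ((hkm.comp (h1.measurable.const_smul s)).mul
      (hq_meas.comp h2.measurable)).ennreal_ofReal.const_mul _
  have h1 : ∀ x : EE (n + 1), ‖Kt (ac a η s) 0 x‖ₑ ≤
      ENNReal.ofReal C1 * ∫⁻ θ in Th η s, F θ x := by
    intro x
    obtain ⟨hx, ht⟩ := (hCOV n).1 x 0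
    have h2 := hK η s (zt x 0) hs hs1
    rw [hx, ht] at h2
    refine h2.trans (mul_le_mul' le_rfl ?_)
    refine setLIntegral_mono' (meas_Th η s) fun θ hθ => ?_
    rw [hF]
    simp only
    rw [← ENNReal.ofReal_mul hC2.le]
    exact ENNReal.ofReal_le_ofReal (hW s θ x hs hs1 hθ.2)
  calc ∫⁻ x, ‖Kt (ac a η s) 0 x‖ₑ
      ≤ ∫⁻ x, ENNReal.ofReal C1 * ∫⁻ θ in Th η s, F θ x := lintegral_mono h1
    _ = ENNReal.ofReal C1 * ∫⁻ x, ∫⁻ θ in Th η s, F θ x :=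
        lintegral_const_mul' _ _ ENNReal.ofReal_ne_top
    _ = ENNReal.ofReal C1 * ∫⁻ θ in Th η s, ∫⁻ x, F θ x := by
        rw [lintegral_lintegral_swap]
        exact hFm.aemeasurable
    _ ≤ ENNReal.ofReal C1 * ∫⁻ _θ in Th η s,
          ENNReal.ofReal (C2 * (2 * I1 * ((s ^ n)⁻¹ * I2))) := by
        refine mul_le_mul' le_rfl (lintegral_mono fun θ => ?_)
        rw [hF]
        simp only
        rw [lintegral_const_mul' _ _ ENNReal.ofReal_ne_top, ENNReal.ofReal_mul hC2.le]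
        refine mul_le_mul' le_rfl ((int_wt θ s hs).trans (le_of_eq ?_))
        rw [hI1e, hI2e, ENNReal.ofReal_mul (by positivity), ENNReal.ofReal_mul (by norm_num),
          ENNReal.ofReal_mul (by positivity), ENNReal.ofReal_ofNat]
    _ = ENNReal.ofReal C1 * (ENNReal.ofReal (C2 * (2 * I1 * ((s ^ n)⁻¹ * I2))) *
          volume (Th η s)) := by rw [setLIntegral_const]
    _ ≤ ENNReal.ofReal C1 * (ENNReal.ofReal (C2 * (2 * I1 * ((s ^ n)⁻¹ * I2))) *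
          ENNReal.ofReal (V * s ^ n)) := by
        gcongr
        exact hvol η s hs
    _ ≤ _ := by
        rw [← ENNReal.ofReal_mul (by positivity), ← ENNReal.ofReal_mul hC1.le]
        apply ENNReal.ofReal_le_ofReal
        have : C1 * (C2 * (2 * I1 * ((s ^ n)⁻¹ * I2)) * (V * s ^ n)) =
            C1 * (C2 * (2 * I1 * I2) * V) := by
          field_simp
        linarith

/-- sup bound of the part of bounded data in a cap -/
theorem ua_sup (hPKB : T_PKB) (hPOW : T_POW) (hPLE : T_PLE) (hACS : T_ACS) (hCOV : T_COV) {κ : ℝ}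
    {a : EE (n + 1) → ℂ} (hn : 1 ≤ n) (hκ : κ ≤ 1 / 8) (ha : SymE n κ a) :
    ∃ C : ℝ, 0 < C ∧ ∀ (η : EE n) (s A : ℝ) (g : EE (n + 1) → ℂ), 0 < s → s ≤ 1 → BCd A g →
    ∀ x, ‖Ua (ac a η s) 0 g x‖ₑ ≤ ENNReal.ofReal (C * A) := by
  obtain ⟨C, hC, h⟩ := ker_l1 hPKB hPOW hCOV hn hκ ha
  refine ⟨C, hC, fun η s A g hs hs1 hg x => ?_⟩
  rw [Ua_conv (hACS n κ s η a hκ ha hs).1 hPLE 0 hg x]
  have hA : 0 ≤ A := (norm_nonneg _).trans (hg.2.1 0)
  calc ‖∫ y, Kt (ac a η s) 0 (x - y) * g y‖ₑ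
      ≤ ∫⁻ y, ‖Kt (ac a η s) 0 (x - y) * g y‖ₑ := enorm_integral_le_lintegral_enorm _
    _ ≤ ∫⁻ y, ‖Kt (ac a η s) 0 (x - y)‖ₑ * ENNReal.ofReal A := by
        refine lintegral_mono fun y => ?_
        rw [enorm_mul, ← ofReal_norm (g y)]
        exact mul_le_mul' le_rfl (ENNReal.ofReal_le_ofReal (hg.2.1 y))
    _ = (∫⁻ y, ‖Kt (ac a η s) 0 (x - y)‖ₑ) * ENNReal.ofReal A :=
        lintegral_mul_const' _ _ ENNReal.ofReal_ne_top
    _ = (∫⁻ y, ‖Kt (ac a η s) 0 y‖ₑ) * ENNReal.ofReal A := by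
        rw [lintegral_sub_left_eq_self (fun y => ‖Kt (ac a η s) 0 y‖ₑ) x]
    _ ≤ ENNReal.ofReal C * ENNReal.ofReal A := mul_le_mul' (h η s hs hs1) le_rfl
    _ = _ := (ENNReal.ofReal_mul hC.le).symm

end Pool.Agent.H94.FD.KSV
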