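import Pool.Agent.H82.FD.Abs
import Pool.Agent.H90.G.REC

/-!
Frostman data (MP_ee74d2_an): the recursion for an abstract class (after `Pool.Agent.H22.G4.REC`).
-/

set_option autoImplicit false

namespace Pool.Agent.H94.FD

open MeasureTheory Set Pool.Agent.H83.G Pool.Agent.H22.G4 Pool.Agent.H90.G Pool.Agent.H82.FD
open scoped ENNReal NNReal RealInnerProductSpace

/-- RECK: the recursion -/
theorem pf_RECK {m L : ℕ} {x : ℝ} {K0 : KP m} (hcl : IsCl m L K0) (hx0 : 0 < x)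
    (hmx : 2 < m * x) (hBAS : T_BASK m L x K0) (hBRN : T_BRN8) (hNAR : T_NARK m L x K0)
    (hBRO : T_BROK m L x K0) (hENS : T_ENS) (hPUX : T_PUX) (hWT3 : T_WT3) : T_RECK m L x K0 := by
  classical
  obtain ⟨β, hβ⟩ := hPUX m
  obtain ⟨c, hc, hc1, hbrn⟩ := hBRN m β hβ
  obtain ⟨CN, hCN, hnar⟩ := hNAR β c hβ hc
  obtain ⟨Cb, hCb, -, hbas⟩ := hBAS
  refine ⟨CN, hCN, ?_⟩
  intro K δ ε₀ ε₁ hK hδ hδ1 hε₀ hε₀1 hε₁
  have hK0 : 0 < K := by linarith
  obtain ⟨CK, hCK, hcpc⟩ := hcl.cpc β K hβ hK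
  have hCK0 : 0 < CK := by linarith
  set cc : ℝ := c * K⁻¹ ^ m with hcc
  have hcc0 : 0 < cc := by positivity
  set b₀ : ℝ := cc / CK with hb₀
  have hb₀p : 0 < b₀ := by positivity
  obtain ⟨CB, hCB, hbro⟩ := hBRO β K δ ε₀ ε₁ b₀ hβ hK hδ hδ1 hε₀ hε₀1 hε₁ hb₀p
  obtain ⟨CE, hCE, hens⟩ := hENS m (m + 3) β δ hβ hδ.le le_rfl
  have hwt5 : ∀ x : Z m, ∃ l : Zi m, ‖x - zc l‖ ≤ (m : ℝ) + 1 :=
    (hWT3 m (m + 3) le_rfl).choose_spec.2.2.2.2
  set nK : ℝ := ((Ks m K⁻¹).card : ℝ) ^ 3 with hnK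
  have hnK0 : 0 ≤ nK := by positivity
  have hCB0 : 0 < CB := by linarith
  set CT : ℝ := cc ^ (-(2 + x)) * (nK * (CB * CK ^ x * (3 * CE))) with hCT
  have hCT0 : 0 ≤ CT := by positivity
  have hlo : 0 < lo m := by
    unfold lo
    positivity
  have hlolb : lo m ≤ lb m := by
    unfold lo lb
    have : (0 : ℝ) ≤ m := Nat.cast_nonneg m
    nlinarith
  have hlb : 0 < lb m := by linarith
  have hCδ : 0 ≤ (8 * CB) ^ (1 / δ) := by positivity
  refine ⟨CB + K ^ 2 + Cb + CT + 1 + (8 * CB) ^ (1 / δ), by nlinarith, ?_⟩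
  set C₂ : ℝ := CB + K ^ 2 + Cb + CT + 1 + (8 * CB) ^ (1 / δ) with hC₂
  have hK2 : 0 < K ^ 2 := by positivity
  intro κ R g₁ g₂ hκ hκ1 hR hg₁ hg₂ hB1 hB2 A H G X hA hH hG hX hXH
  have hR1 : 1 ≤ R := by linarith
  have hR0 : 0 < R := by linarith
  have hKR : K ^ 2 ≤ R := by linarith
  have hCBR : CB ≤ R := by linarith
  have hI0 : 0 ≤ ∫ ζ, ‖G ζ‖ ^ 2 := integral_nonneg fun ζ => by positivity
  have hC₂0 : 0 < C₂ := by linarith
  rcases le_or_gt H A with hHA | hAH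
  · -- the trivial case
    have h1 := hbas κ R A H G X hκ (by linarith) hR1 hA hH hHA hG hX hXH
    refine h1.trans ?_
    have h2 : 1 ≤ R ^ (2 * lb m * (δ + ε₀)) := Real.one_le_rpow hR1 (by positivity)
    have h3 : 1 ≤ R ^ (m * x / 2 - 1) := Real.one_le_rpow hR1 (by linarith)
    have h4 : Cb ≤ CN * K ^ (2 - m * x) * g₁ + C₂ * R ^ (ε₁ + 2 * lb m * δ) * g₂ +
        C₂ * R ^ (2 * lb m * (δ + ε₀)) := by
      have h5 : 0 ≤ CN * K ^ (2 - m * x) * g₁ := by positivity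
      have h6 : 0 ≤ C₂ * R ^ (ε₁ + 2 * lb m * δ) * g₂ := by positivity
      have h7 : Cb ≤ C₂ * R ^ (2 * lb m * (δ + ε₀)) := by
        calc Cb ≤ C₂ := by linarith
          _ = C₂ * 1 := by ring
          _ ≤ _ := mul_le_mul_of_nonneg_left h2 hC₂0.le
      linarith
    calc Cb * A ^ x * ∫ ζ, ‖G ζ‖ ^ 2
        = Cb * (A ^ x * 1 * ∫ ζ, ‖G ζ‖ ^ 2) := by ring
      _ ≤ (CN * K ^ (2 - m * x) * g₁ + C₂ * R ^ (ε₁ + 2 * lb m * δ) * g₂ +
        C₂ * R ^ (2 * lb m * (δ + ε₀))) * (A ^ x * R ^ (m * x / 2 - 1) * ∫ ζ, ‖G ζ‖ ^ 2) := by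
          refine mul_le_mul h4 ?_ (by positivity) (hCb.le.trans h4)
          refine mul_le_mul_of_nonneg_right ?_ hI0
          exact mul_le_mul_of_nonneg_left h3 (by positivity)
      _ = _ := by ring
  -- broad and narrow points
  set pn : Z m → Prop := fun z => ∃ k ∈ Ks m K⁻¹, c * H ≤ ‖TP β (ctr K⁻¹ k) K⁻¹ G z‖ with hpn
  set Xn : Finset (Z m) := X.filter pn with hXn
  set Xb : Finset (Z m) := X.filter (fun z => ¬ pn z) with hXb
  have hcard : (X.card : ℝ) = Xn.card + Xb.card := by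
    rw [hXn, hXb]
    exact_mod_cast (Finset.card_filter_add_card_filter_not pn).symm
  have hnarrow : (Xn.card : ℝ) * H ^ (2 + x) ≤
      CN * K ^ (2 - m * x) * g₁ * A ^ x * R ^ (m * x / 2 - 1) * ∫ ζ, ‖G ζ‖ ^ 2 := by
    refine hnar K κ R A H g₁ G Xn hK hκ (by linarith) hKR hA hH hg₁ hB1 hG ?_ ?_
    · intro z hz z' hz' hne
      exact hX z (Finset.mem_filter.1 hz).1 z' (Finset.mem_filter.1 hz').1 hne
    · intro z hz
      exact (Finset.mem_filter.1 hz).2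
  -- triples
  have hT : ∀ z ∈ Xb, ∃ k : Fin 3 → (Fin m → ℤ), (∀ i, k i ∈ Ks m K⁻¹) ∧
      (∀ i j, i ≠ j → 8 / K ≤ ‖ctr K⁻¹ (k i) - ctr K⁻¹ (k j)‖) ∧
      ∀ i, cc * H ≤ ‖TP β (ctr K⁻¹ (k i)) K⁻¹ G z‖ := by
    intro z hz
    obtain ⟨hzX, hzn⟩ := Finset.mem_filter.1 hz
    have hHz := hXH z hzX
    have hsupp : ∀ ζ, G ζ ≠ 0 → 1 / 4 ≤ ζ.1 ∧ ‖ζ.2.1‖ ≤ 3 / 2 * ζ.1 := by
      intro ζ hζ
      obtain ⟨h1, h2, h3, h4⟩ := (hcl.cls hG).2.1 ζ hζ
      have h5 : 1 / 4 ≤ ζ.1 := by linarith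
      refine ⟨h5, h3.trans (mul_le_mul_of_nonneg_right (by linarith) (by linarith))⟩
    rcases hbrn K G z hK (hcl.cls hG).1 hsupp with ⟨k, hk, hkz⟩ | ⟨k, hk1, hk2, hk3⟩
    · exact absurd ⟨k, hk, (mul_le_mul_of_nonneg_left hHz hc.le).trans hkz⟩ hzn
    · exact ⟨k, hk1, hk2, fun i => (mul_le_mul_of_nonneg_left hHz hcc0.le).trans (hk3 i)⟩
  choose! kk hkk1 hkk2 hkk3 using hT
  have hJ : ∀ z : Z m, ∃ l : Zi m, ‖z - (R / ((m : ℝ) + 1)) • zc l‖ ≤ R := by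
    intro z
    have hm1 : (0 : ℝ) < (m : ℝ) + 1 := by positivity
    obtain ⟨l, hl⟩ := hwt5 ((R / ((m : ℝ) + 1))⁻¹ • z)
    refine ⟨l, ?_⟩
    have h1 : z - (R / ((m : ℝ) + 1)) • zc l =
        (R / ((m : ℝ) + 1)) • ((R / ((m : ℝ) + 1))⁻¹ • z - zc l) := by
      rw [smul_sub, smul_smul, mul_inv_cancel₀ (by positivity), one_smul]
    rw [h1, norm_smul, Real.norm_of_nonneg (by positivity)]
    calc R / ((m : ℝ) + 1) * ‖(R / ((m : ℝ) + 1))⁻¹ • z - zc l‖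
        ≤ R / ((m : ℝ) + 1) * ((m : ℝ) + 1) := mul_le_mul_of_nonneg_left hl (by positivity)
      _ = R := by field_simp
  choose jj hjj using hJ
  have hcls : ∀ k ∈ Ks m K⁻¹, K0 κ R (CK * A) (Gk β K G k) := by
    intro k hk
    exact hcpc κ R A G (ctr K⁻¹ k) hκ (by linarith) hR1 hA (ctr_norm_le K hK k hk) hG
  set PF : Finset (Fin 3 → (Fin m → ℤ)) := Fintype.piFinset fun _ => Ks m K⁻¹ with hPF
  set JF : Finset (Zi m) := Xb.image jj with hJF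
  set MM : ℝ := CB * (R ^ (ε₁ + lb m * δ) * g₂ + R ^ (lb m * (δ + ε₀))) * (CK * A) ^ x *
    R ^ (m * x / 2 - 1) with hMM
  have hMM0 : 0 ≤ MM := by positivity
  have hκB : κ + CB * R ^ (-δ) ≤ κ + C₂ * R ^ (-δ) := by
    have : CB * R ^ (-δ) ≤ C₂ * R ^ (-δ) :=
      mul_le_mul_of_nonneg_right (by linarith) (by positivity)
    linarith
  have hκB2 : κ + CB * R ^ (-δ) ≤ 1 / 2 := by
    have a1 : (8 * CB) ^ (1 / δ) ≤ R := by linarith
    have a2 : 8 * CB ≤ R ^ δ := by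
      have a3 := Real.rpow_le_rpow hCδ a1 hδ.le
      rwa [← Real.rpow_mul (by positivity), one_div_mul_cancel hδ.ne', Real.rpow_one] at a3
    have a4 : CB * R ^ (-δ) ≤ 1 / 8 := by
      rw [Real.rpow_neg hR0.le, ← div_eq_mul_inv, div_le_iff₀ (by positivity)]
      linarith
    linarith
  have hB2' : BdK K0 x (κ + CB * R ^ (-δ)) (R ^ (1 - ε₀)) g₂ := by
    intro A' H' G' X' hA' hH' hG' hX' hXH'
    exact hB2 A' H' G' X' hA' hH' (hcl.monoK hκB hκB2 (by positivity) hG') hX' hXH'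
  -- one triple and one ball
  have hone : ∀ k3 ∈ PF, ∀ l ∈ JF,
      ((Xb.filter (fun z => (kk z, jj z) = (k3, l))).card : ℝ) * (cc * H) ^ (2 + x) ≤
      MM * (∑ i, Er (m + 3) β R δ (Gk β K G (k3 i)) ((R / ((m : ℝ) + 1)) • zc l)).toReal := by
    intro k3 hk3 l hl
    set Y : Finset (Z m) := Xb.filter (fun z => (kk z, jj z) = (k3, l)) with hY
    rcases Y.eq_empty_or_nonempty with hYe | ⟨z₁, hz₁⟩
    · rw [hYe, Finset.card_empty, Nat.cast_zero, zero_mul]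
      positivity
    · obtain ⟨hz₁b, hz₁e⟩ := Finset.mem_filter.1 hz₁
      rw [Prod.ext_iff] at hz₁e
      have hz₁k : kk z₁ = k3 := hz₁e.1
      have hKs : ∀ i, k3 i ∈ Ks m K⁻¹ := by
        intro i
        rw [← hz₁k]
        exact hkk1 z₁ hz₁b i
      refine hbro κ R (CK * A) (cc * H) g₂ (fun i => Gk β K G (k3 i))
        (fun i => ctr K⁻¹ (k3 i)) ((R / ((m : ℝ) + 1)) • zc l) Y hκ hκ1 hCBR (by positivity)
        (by positivity) ?_ hg₂ ?_ ?_ ?_ ?_ ?_ ?_ ?_ hB2'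
      · rw [hb₀, div_mul_eq_mul_div, ← mul_assoc, mul_comm cc CK, mul_assoc,
          mul_div_cancel_left₀ _ hCK0.ne']
        exact mul_le_mul_of_nonneg_left hAH.le hcc0.le
      · exact fun i => hcls (k3 i) (hKs i)
      · exact fun i => ctr_norm_le K hK (k3 i) (hKs i)
      · intro i ζ hζ
        have h1 : β ((K⁻¹)⁻¹ • (ζ.1⁻¹ • ζ.2.1 - ctr K⁻¹ (k3 i))) ≠ 0 := by
          intro h2
          apply hζ
          change cp β (ctr K⁻¹ (k3 i)) K⁻¹ ζ * G ζ = 0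
          unfold cp
          rw [h2, zero_mul]
        have h2 : ‖(K⁻¹)⁻¹ • (ζ.1⁻¹ • ζ.2.1 - ctr K⁻¹ (k3 i))‖ < 1 := by
          by_contra hcon
          push Not at hcon
          exact h1 (hβ.2.1 _ hcon)
        rw [norm_smul, inv_inv, Real.norm_of_nonneg hK0.le] at h2
        rw [le_div_iff₀ hK0, mul_comm]
        exact h2.le
      · intro i j hij
        have h1 := hkk2 z₁ hz₁b i j hij
        rw [hz₁k] at h1
        exact h1
      · intro z hz z' hz' hne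
        exact hX z (Finset.mem_filter.1 (Finset.mem_filter.1 hz).1).1 z'
          (Finset.mem_filter.1 (Finset.mem_filter.1 hz').1).1 hne
      · intro z hz
        obtain ⟨hzb, hze⟩ := Finset.mem_filter.1 hz
        rw [Prod.ext_iff] at hze
        have h1 : jj z = l := hze.2
        rw [← h1]
        exact hjj z
      · intro z hz i
        obtain ⟨hzb, hze⟩ := Finset.mem_filter.1 hz
        rw [Prod.ext_iff] at hze
        have h1 : kk z = k3 := hze.1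
        have h2 := hkk3 z hzb i
        rw [h1] at h2
        exact h2
  -- the sum
  have hsumc : (Xb.card : ℝ) = ∑ k3 ∈ PF, ∑ l ∈ JF,
      ((Xb.filter (fun z => (kk z, jj z) = (k3, l))).card : ℝ) := by
    have hmap : ∀ z ∈ Xb, (kk z, jj z) ∈ PF ×ˢ JF := by
      intro z hz
      rw [Finset.mem_product]
      refine ⟨?_, Finset.mem_image_of_mem _ hz⟩
      exact Fintype.mem_piFinset.2 fun i => hkk1 z hz i
    have h1 := Finset.card_eq_sum_card_fiberwise (f := fun z => (kk z, jj z)) hmap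
    rw [Finset.sum_product] at h1
    exact_mod_cast h1
  have hPFc : (PF.card : ℝ) = nK := by
    rw [hPF, Fintype.card_piFinset, Finset.prod_const, Finset.card_univ, Fintype.card_fin,
      Nat.cast_pow]
  have hbroad : (Xb.card : ℝ) * (cc * H) ^ (2 + x) ≤
      nK * (MM * (3 * (CE * R ^ (lo m * δ) * ∫ ζ, ‖G ζ‖ ^ 2))) := by
    calc (Xb.card : ℝ) * (cc * H) ^ (2 + x)
        = ∑ k3 ∈ PF, ∑ l ∈ JF, ((Xb.filter (fun z => (kk z, jj z) = (k3, l))).card : ℝ) *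
            (cc * H) ^ (2 + x) := by
          rw [hsumc, Finset.sum_mul]
          refine Finset.sum_congr rfl fun k3 _ => ?_
          rw [Finset.sum_mul]
      _ ≤ ∑ k3 ∈ PF, ∑ l ∈ JF, MM * (∑ i, Er (m + 3) β R δ (Gk β K G (k3 i))
            ((R / ((m : ℝ) + 1)) • zc l)).toReal :=
          Finset.sum_le_sum fun k3 hk3 => Finset.sum_le_sum fun l hl => hone k3 hk3 l hl
      _ ≤ ∑ k3 ∈ PF, MM * (3 * (CE * R ^ (lo m * δ) * ∫ ζ, ‖G ζ‖ ^ 2)) := by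
          refine Finset.sum_le_sum fun k3 hk3 => ?_
          rw [← Finset.mul_sum]
          refine mul_le_mul_of_nonneg_left ?_ hMM0
          exact sum_Er hβ hCE (by linarith) hR1 (hcl.cls hG).1 hens
            (fun k hk => hcl.cls (hcls k hk)) k3
            (fun i => Fintype.mem_piFinset.1 hk3 i) JF
      _ = _ := by
          rw [Finset.sum_const, nsmul_eq_mul, hPFc]
  -- the powers
  have hbroad2 : (Xb.card : ℝ) * H ^ (2 + x) ≤
      (C₂ * R ^ (ε₁ + 2 * lb m * δ) * g₂ + C₂ * R ^ (2 * lb m * (δ + ε₀))) *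
        (A ^ x * R ^ (m * x / 2 - 1) * ∫ ζ, ‖G ζ‖ ^ 2) := by
    have h1 : (Xb.card : ℝ) * H ^ (2 + x) =
        cc ^ (-(2 + x)) * ((Xb.card : ℝ) * (cc * H) ^ (2 + x)) := by
      rw [Real.mul_rpow hcc0.le hH.le]
      have h2 : cc ^ (-(2 + x)) * cc ^ (2 + x) = 1 := by
        rw [← Real.rpow_add hcc0, neg_add_cancel, Real.rpow_zero]
      calc (Xb.card : ℝ) * H ^ (2 + x)
          = (cc ^ (-(2 + x)) * cc ^ (2 + x)) * ((Xb.card : ℝ) * H ^ (2 + x)) := by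
            rw [h2, one_mul]
        _ = _ := by ring
    rw [h1]
    refine (mul_le_mul_of_nonneg_left hbroad (by positivity)).trans ?_
    have h3 := pow_sum R (lo m) (lb m) δ ε₀ ε₁ g₂ hR1 hlolb hlb.le hδ.le hε₀.le (by linarith)
    rw [hMM, Real.mul_rpow hCK0.le hA.le]
    have h4 := fin_num (cc ^ (-(2 + x))) nK CB (CK ^ x) (A ^ x) (R ^ (m * x / 2 - 1)) CE
      (R ^ (lo m * δ)) (∫ ζ, ‖G ζ‖ ^ 2) (R ^ (ε₁ + lb m * δ) * g₂ + R ^ (lb m * (δ + ε₀)))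
      (R ^ (ε₁ + 2 * lb m * δ) * g₂ + R ^ (2 * lb m * (δ + ε₀))) CT C₂ hCT (by linarith)
      hC₂0.le h3 (by positivity) (by positivity)
    refine h4.trans (le_of_eq ?_)
    ring
  calc (X.card : ℝ) * H ^ (2 + x)
      = (Xn.card : ℝ) * H ^ (2 + x) + (Xb.card : ℝ) * H ^ (2 + x) := by
        rw [hcard]
        ring
    _ ≤ (CN * K ^ (2 - m * x) * g₁ * A ^ x * R ^ (m * x / 2 - 1) * ∫ ζ, ‖G ζ‖ ^ 2) +
        (C₂ * R ^ (ε₁ + 2 * lb m * δ) * g₂ + C₂ * R ^ (2 * lb m * (δ + ε₀))) *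
        (A ^ x * R ^ (m * x / 2 - 1) * ∫ ζ, ‖G ζ‖ ^ 2) := add_le_add hnarrow hbroad2
    _ = _ := by ring

end Pool.Agent.H94.FD
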