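import Pool.Agent.H94.G4.CoreJ
import Pool.Agent.H82.G4.Targets3

/-!
MP_ee74d2_an, Frostman data: the two-ends case for an abstract class `K0` (instead of `Cls L`),
with the energy bound `En ≤ A² R^(1+α)` and an extra constraint. Statements.
-/

set_option autoImplicit false

namespace Pool.Agent.H94.FD

open Pool.Agent.H83.G Pool.Agent.H83.G.TEN Pool.Agent.H22.G4 Pool.Agent.H94.G4 MeasureTheory Set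
open scoped ENNReal NNReal RealInnerProductSpace

/-- a class of functions `K0 κ R A G` -/
abbrev KP (m : ℕ) : Type := ℝ → ℝ → ℝ → (Z m → ℂ) → Prop

/-- the final linear programme with `j` functions, energy `E ≤ A² R^α` and an extra constraint -/
def T_ALGF (j m : ℕ) (α x : ℝ) (XC : XCon j) : Prop := ∀ (N H q E A L R : ℝ)
  (M1 M t b a : Fin j → ℝ),
  0 < N → 0 < H → 0 < q → 0 < E → 0 < A → 1 ≤ L → 1 ≤ R →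
  (∀ i, 0 < M1 i) → (∀ i, 0 < M i) → (∀ i, 0 < t i) → (∀ i, 1 ≤ b i) → (∀ i, 0 < a i) →
  (∀ i, t i * b i * a i ^ 2 * R ^ ((m : ℝ) / 2) ≤ L * E) →
  E ≤ L * A ^ 2 * R ^ α →
  (∀ i, q * M i ≤ L * t i * R ^ (1 / 2 : ℝ)) →
  (∀ i i', i ≠ i' → q * M i * M i' ^ 2 ≤ L * t i * t i') →
  N * (∏ i, M1 i) ≤ L * q * (∏ i, (M i * b i)) * R ^ (((m : ℝ) + 2 - j) / 2) →
  (∀ i, N * H ^ 2 ≤ L * q * M i * b i * a i ^ 2 * R ^ (((m : ℝ) + 1) / 2)) →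
  (∀ i, N * H ^ (2 * ((m : ℝ) + 2) / m) ≤
    L * M1 i ^ (2 / (m : ℝ)) * a i ^ (2 * ((m : ℝ) + 2) / m) * t i * b i *
      R ^ (((m : ℝ) + 2) / 2)) →
  (∀ i, M1 i ≤ L * M i) → (∀ i, a i ≤ L * A) → XC N H q A L R M b a →
  N * H ^ (2 + x) ≤ L ^ 5 * A ^ x * R ^ ((m : ℝ) * x / 2) * E

/-- the extra constraint: the bound for the energy of a tube -/
def XA (j m : ℕ) (θ : ℝ) : XCon j := fun _ _ _ A L R _ b a =>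
  ∀ i, b i * a i ^ 2 * R ^ ((m : ℝ) / 2) ≤ L * A ^ 2 * R ^ θ

open scoped Classical in
/-- TUB: the energy of one family in one tube, for the class `K0` -/
def T_TUB (m : ℕ) (θ : ℝ) (K0 : KP m) : Prop := ∀ (β : E m → ℂ) (δ B : ℝ), IsPU β → 0 < δ →
  δ ≤ 1 / 100 → 1 ≤ B → ∀ N : ℕ, m + 5 ≤ N → ∃ C : ℝ, 1 ≤ C ∧ ∀ (κ R A a b : ℝ) (G : Z m → ℂ)
  (S : Finset (Pk m)), 0 ≤ κ → κ ≤ 3 / 8 → 1 ≤ R → C ≤ R ^ δ → 0 < A → 0 < a → 1 ≤ b →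
  K0 κ R A G → S.Nonempty →
  (∀ W ∈ S, W.1 ∈ Ks m (sR R) ∧ a ≤ al N β R δ G W ∧ al N β R δ G W ≤ 2 * a) →
  (S.card : ℝ) ≤ B * R ^ (2 * ((m : ℝ) + 2)) →
  (∀ W ∈ S, b ≤ ((S.filter (fun W' => tb R W' = tb R W)).card : ℝ)) →
  b * a ^ 2 * R ^ ((m : ℝ) / 2) ≤ C * R ^ (2 * lo m * δ) * (A ^ 2 * R ^ θ)

open scoped Classical in
/-- XQF: the extra constraint holds for the class `K0` -/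
def T_XQF (j m : ℕ) (K0 : KP m) (XC : XCon j) : Prop := ∀ (β : E m → ℂ) (Ψ : Z m → ℂ)
  (ψ : Z m → ℝ) (K c₀ δ b₀ B : ℝ), 1 ≤ m → IsPU β → IsPsi Ψ ψ → 1 ≤ K → 0 < c₀ → 0 < δ →
  δ ≤ 1 / 100 → 0 < b₀ → 1 ≤ B → ∀ N : ℕ, m + 5 ≤ N → ∃ C : ℝ, 1 ≤ C ∧ ∀ (κ R r A H : ℝ)
  (G : Fin j → Z m → ℂ) (c : Fin j → E m) (S : Fin j → Finset (Pk m)) (a b M : Fin j → ℝ)
  (QQ : Finset (Zi m)) (l k : Fin j → ℕ) (X : Finset (Z m)), 0 ≤ κ → κ ≤ 3 / 8 →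
  1 ≤ R → C ≤ R ^ δ → 0 < A → 0 < H → b₀ * A ≤ R ^ δ * H → (∀ i, ‖c i‖ ≤ 4 * m + 4) →
  (∀ i i', i ≠ i' → 4 / K ≤ ‖c i - c i'‖) →
  (∀ η : Fin j → E m, (∀ i, ‖η i - c i‖ ≤ 2 / K) → Ind c₀ η) →
  (∀ i, 0 < a i ∧ 1 ≤ b i ∧ 0 < M i) → (∀ i, K0 κ R A (G i)) → Sep X → X.Nonempty →
  (∀ i, (S i).Nonempty) →
  (∀ i, ∀ W ∈ S i, W.1 ∈ Ks m (sR R) ∧ ‖ctr (sR R) W.1 - c i‖ ≤ 1 / K + sR R ∧
    a i ≤ al N β R δ (G i) W ∧ al N β R δ (G i) W ≤ 2 * a i) →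
  (∀ i, ((S i).card : ℝ) ≤ B * R ^ (2 * ((m : ℝ) + 2))) →
  (∀ i, ∀ W ∈ S i, b i ≤ (((S i).filter (fun W' => tb R W' = tb R W)).card : ℝ) ∧
    (((S i).filter (fun W' => tb R W' = tb R W)).card : ℝ) ≤ 2 * b i) →
  (∀ i, ∀ z ∈ X, ((((S i).image (tb R)).filter (fun T => Inc R δ T (cb (Real.sqrt R) z) ∧
    Sh QQ R r δ (l i) (k i) T (bl R r (cb (Real.sqrt R) z)))).card : ℝ) ≤ 2 * M i) →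
  (∀ i, ∀ z ∈ X, H ≤ ‖∑ W ∈ SB QQ R r δ (l i) (k i) (S i) (bl R r (cb (Real.sqrt R) z)),
    Fp β ψ R δ (G i) W z‖) →
  ∀ L' : ℝ, C * R ^ (2 * lo m * δ) ≤ L' →
    XC X.card H (X.image (cb (Real.sqrt R))).card A L' R M b a

/-- the two-ends case with `j` transversal functions for the class `K0`, for fixed `m`, `α`, `x` -/
def TENf (j m : ℕ) (K0 : KP m) (α x : ℝ) : Prop := ∀ (β : E m → ℂ) (Ψ : Z m → ℂ) (ψ : Z m → ℝ)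
  (K c₀ δ ε₀ b₀ B : ℝ),
  IsPU β → IsPsi Ψ ψ → 1 ≤ K → 0 < c₀ → 0 < δ → δ ≤ 1 / 100 → 0 < ε₀ → ε₀ ≤ 1 / 4 → 0 < b₀ →
  1 ≤ B → ∃ N₀ : ℕ, ∀ N : ℕ, N₀ ≤ N → ∃ C : ℝ, 1 ≤ C ∧
  ∀ (κ R A H En : ℝ) (G : Fin j → Z m → ℂ) (c : Fin j → E m) (z₀ : Z m)
  (S : Fin j → Finset (Pk m)) (a b : Fin j → ℝ) (l k : Fin j → ℕ) (QQ : Finset (Zi m)) (ν : ℝ)
  (X : Finset (Z m)), 0 ≤ κ → κ ≤ 3 / 8 → 1 ≤ R → C ≤ R ^ δ → 0 < A → 0 < H → b₀ * A ≤ R ^ δ * H →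
  0 < En → (∀ i, K0 κ R A (G i)) → (∀ i, ‖c i‖ ≤ 4 * m + 4) →
  (∀ i j, i ≠ j → 4 / K ≤ ‖c i - c j‖) →
  (∀ η : Fin j → E m, (∀ i, ‖η i - c i‖ ≤ 2 / K) → Ind c₀ η) →
  Sep X → (∀ z ∈ X, ‖z - z₀‖ ≤ R) →
  (∀ i, ∀ W ∈ S i, W.1 ∈ Ks m (sR R) ∧ (∃ z, ‖z - z₀‖ ≤ R ∧ near R δ W z) ∧
    ‖ctr (sR R) W.1‖ ≤ 3 ∧ ‖ctr (sR R) W.1 - c i‖ ≤ 1 / K + sR R ∧
    a i ≤ al N β R δ (G i) W ∧ al N β R δ (G i) W ≤ 2 * a i) →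
  (∀ i, ((S i).card : ℝ) ≤ B * R ^ (2 * ((m : ℝ) + 2))) →
  (∀ i, 0 < a i ∧ 1 ≤ b i) →
  (∀ i, ∀ W ∈ S i, b i ≤ (((S i).filter (fun W' => tb R W' = tb R W)).card : ℝ) ∧
    (((S i).filter (fun W' => tb R W' = tb R W)).card : ℝ) ≤ 2 * b i) →
  (∀ i, ∑ W ∈ S i, al N β R δ (G i) W ^ 2 * R ^ (((m : ℝ) + 2) / 2) ≤ En) →
  En ≤ B * R ^ (lo m * δ) * (A ^ 2 * R ^ (1 + α)) →
  0 < ν → ν * QQ.card ≤ R ^ δ * X.card →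
  (∀ q, ((X.filter (fun z => cb (Real.sqrt R) z = q)).card : ℝ) ≤ 2 * ν) →
  (∀ z ∈ X, cb (Real.sqrt R) z ∈ QQ) →
  (∀ q ∈ QQ, ‖Real.sqrt R • zc q - z₀‖ ≤ ((m : ℝ) + 2) * R) →
  (∀ i, C ≤ (2 : ℝ) ^ k i) →
  (∀ z ∈ X, ∀ i, H ≤ ‖∑ W ∈ SB QQ R (R ^ (1 - ε₀)) δ (l i) (k i) (S i)
    (bl R (R ^ (1 - ε₀)) (cb (Real.sqrt R) z)), Fp β ψ R δ (G i) W z‖) →
  (X.card : ℝ) * H ^ (2 + x) ≤
    C * R ^ ((lb m - 1) * (δ + ε₀)) * A ^ x * R ^ (m * x / 2 - 1) * En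

end Pool.Agent.H94.FD
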